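import Pool.Agent.TH326.SF.Cls

/-!
# Absolute sums of two spaces
-/

set_option autoImplicit false
set_option linter.all false

open Set Metric Topology Filter
open scoped ENNReal

namespace Pool.Agent.TH326.SF

open Pool.Agent.H621R3.SG (NLO)

variable {E F X : Type*} [NormedAddCommGroup E] [NormedSpace ℝ E] [NormedAddCommGroup F]
  [NormedSpace ℝ F] [NormedAddCommGroup X] [NormedSpace ℝ X]

/-- `X` is the absolute sum of `E` and `F` for the function `N` -/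
structure AbsSum (N : ℝ → ℝ → ℝ) (i₁ : E →ₗᵢ[ℝ] X) (p₁ : X →L[ℝ] E) (i₂ : F →ₗᵢ[ℝ] X)
    (p₂ : X →L[ℝ] F) : Prop where
  p₁i₁ : ∀ e, p₁ (i₁ e) = e
  p₂i₂ : ∀ f, p₂ (i₂ f) = f
  p₁i₂ : ∀ f, p₁ (i₂ f) = 0
  p₂i₁ : ∀ e, p₂ (i₁ e) = 0
  eq : ∀ x, i₁ (p₁ x) + i₂ (p₂ x) = x
  norm : ∀ x, ‖x‖ = N ‖p₁ x‖ ‖p₂ x‖
  mono : ∀ α α' β β', 0 ≤ α → 0 ≤ β → α ≤ α' → β ≤ β' → N α β ≤ N α' β'
  lt : ∀ A B, 0 < A → 0 ≤ B → B < N A B

variable {N : ℝ → ℝ → ℝ} {i₁ : E →ₗᵢ[ℝ] X} {p₁ : X →L[ℝ] E} {i₂ : F →ₗᵢ[ℝ] X} {p₂ : X →L[ℝ] F}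

lemma AbsSum.pair (h : AbsSum N i₁ p₁ i₂ p₂) {f : StrongDual ℝ X} (hf : ‖f‖ ≤ 1) {α β : ℝ}
    (hα : 0 ≤ α) (hβ : 0 ≤ β) :
    ‖f.comp i₁.toContinuousLinearMap‖ * α + ‖f.comp i₂.toContinuousLinearMap‖ * β ≤ N α β := by
  set f₁ : StrongDual ℝ E := f.comp i₁.toContinuousLinearMap with hf₁
  set f₂ : StrongDual ℝ F := f.comp i₂.toContinuousLinearMap with hf₂
  have hf₁a : ∀ e, f₁ e = f (i₁ e) := fun e => rfl
  have hf₂a : ∀ e, f₂ e = f (i₂ e) := fun e => rfl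
  have key : ∀ e : E, ‖e‖ ≤ 1 → ∀ g : F, ‖g‖ ≤ 1 → f₁ e * α + f₂ g * β ≤ N α β := by
    intro e he g hg
    have h1 : f₁ e * α + f₂ g * β = f (i₁ (α • e) + i₂ (β • g)) := by
      rw [map_add, ← hf₁a, ← hf₂a, map_smul, map_smul, smul_eq_mul, smul_eq_mul]
      ring
    have h2 : f (i₁ (α • e) + i₂ (β • g)) ≤ ‖i₁ (α • e) + i₂ (β • g)‖ := by
      have := f.le_of_opNorm_le hf (i₁ (α • e) + i₂ (β • g))
      rw [one_mul] at this
      exact (le_abs_self _).trans this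
    have h3 : ‖i₁ (α • e) + i₂ (β • g)‖ ≤ N α β := by
      rw [h.norm, map_add, map_add, h.p₁i₁, h.p₁i₂, h.p₂i₁, h.p₂i₂, add_zero, zero_add]
      apply h.mono _ _ _ _ (norm_nonneg _) (norm_nonneg _)
      · rw [norm_smul, Real.norm_of_nonneg hα]
        exact mul_le_of_le_one_right hα he
      · rw [norm_smul, Real.norm_of_nonneg hβ]
        exact mul_le_of_le_one_right hβ hg
    linarith
  have key2 : ∀ g : F, ‖g‖ ≤ 1 → ‖f₁‖ * α + f₂ g * β ≤ N α β := by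
    intro g hg
    rcases hα.eq_or_lt with h' | h'
    · have := key 0 (by simp) g hg
      rw [← h'] at this ⊢
      simpa using this
    · have h1 : ‖f₁‖ ≤ (N α β - f₂ g * β) / α := by
        refine ContinuousLinearMap.opNorm_le_of_unit_norm ?_ ?_
        · have := key 0 (by simp) g hg
          rw [map_zero, zero_mul, zero_add] at this
          exact div_nonneg (by linarith) h'.le
        · intro e he
          rw [Real.norm_eq_abs, abs_le]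
          have h2 := key e he.le g hg
          have h3 := key (-e) (by rw [norm_neg]; exact he.le) g hg
          rw [map_neg] at h3
          constructor
          · rw [neg_le, le_div_iff₀ h']
            linarith
          · rw [le_div_iff₀ h']
            linarith
      rw [le_div_iff₀ h'] at h1
      linarith
  rcases hβ.eq_or_lt with h' | h'
  · have := key2 0 (by simp)
    rw [← h'] at this ⊢
    simpa using this
  · have h1 : ‖f₂‖ ≤ (N α β - ‖f₁‖ * α) / β := by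
      refine ContinuousLinearMap.opNorm_le_of_unit_norm ?_ ?_
      · have := key2 0 (by simp)
        rw [map_zero, zero_mul, add_zero] at this
        exact div_nonneg (by linarith) h'.le
      · intro g hg
        rw [Real.norm_eq_abs, abs_le]
        have h2 := key2 g hg.le
        have h3 := key2 (-g) (by rw [norm_neg]; exact hg.le)
        rw [map_neg] at h3
        constructor
        · rw [neg_le, le_div_iff₀ h']
          linarith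
        · rw [le_div_iff₀ h']
          linarith
    rw [le_div_iff₀ h'] at h1
    linarith

lemma AbsSum.sr (h : AbsSum N i₁ p₁ i₂ p₂) {x : X} (hx : p₁ x ≠ 0) (hn : SR (p₁ x)) : SR x := by
  classical
  obtain ⟨a, ha, η₁, hη₁, H⟩ := hn
  set A := ‖p₁ x‖ with hA
  set B := ‖p₂ x‖ with hB
  have hA0 : 0 < A := norm_pos_iff.2 hx
  have hB0 : 0 ≤ B := norm_nonneg _
  have hxn : ‖x‖ = N A B := h.norm x
  have hBN := h.lt A B hA0 hB0
  set ρ₀ := (N A B - B) / (2 * A) with hρ₀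
  have hρ₀0 : 0 < ρ₀ := div_pos (by linarith) (by linarith)
  refine ⟨ρ₀ * a, by positivity, min ((N A B - B) / 2) (η₁ * ρ₀),
    lt_min (by linarith) (by positivity), ?_⟩
  set η := min ((N A B - B) / 2) (η₁ * ρ₀) with hη
  have hη1 : η ≤ (N A B - B) / 2 := min_le_left _ _
  have hη2 : η ≤ η₁ * ρ₀ := min_le_right _ _
  intro W G hW ε hε
  choose! s hs using fun w (hw : w ∈ W) => (hW w hw).1
  let f₁ : X × ℝ → StrongDual ℝ E := fun w => (s w).comp i₁.toContinuousLinearMap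
  let f₂ : X × ℝ → StrongDual ℝ F := fun w => (s w).comp i₂.toContinuousLinearMap
  have hdec : ∀ w y, s w y = f₁ w (p₁ y) + f₂ w (p₂ y) := by
    intro w y
    conv_lhs => rw [← h.eq y]
    rw [map_add]
    rfl
  have hs1 : ∀ w ∈ W, ‖s w‖ ≤ 1 := fun w hw => (hs w hw).1
  have hf₂1 : ∀ w ∈ W, ‖f₂ w‖ ≤ 1 := by
    intro w hw
    refine ContinuousLinearMap.opNorm_le_bound _ zero_le_one fun g => ?_
    have := (s w).le_of_opNorm_le (hs1 w hw) (i₂ g)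
    rw [i₂.norm_map] at this
    exact this
  have hρ : ∀ w ∈ W, ρ₀ ≤ ‖f₁ w‖ := by
    intro w hw
    have h1 := (hW w hw).2 _ (hs w hw)
    rw [hdec, hxn] at h1
    have h2 : f₁ w (p₁ x) ≤ ‖f₁ w‖ * A := (le_abs_self _).trans ((f₁ w).le_opNorm _)
    have h3 : f₂ w (p₂ x) ≤ ‖f₂ w‖ * B := (le_abs_self _).trans ((f₂ w).le_opNorm _)
    have h4 : ‖f₂ w‖ * B ≤ B := mul_le_of_le_one_left hB0 (hf₂1 w hw)
    rw [hρ₀, div_le_iff₀ (by linarith)]
    linarith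
  let T : X × ℝ → E × ℝ := fun w => (p₁ w.1, (w.2 - f₂ w (p₂ w.1)) / ‖f₁ w‖)
  let L : X × ℝ → StrongDual ℝ E → StrongDual ℝ X := fun w ψ =>
    (‖f₁ w‖ • ψ).comp p₁ + (f₂ w).comp p₂
  have hL : ∀ w ψ y, L w ψ y = ‖f₁ w‖ * ψ (p₁ y) + f₂ w (p₂ y) := fun w ψ y => rfl
  have hLS : ∀ w ∈ W, ∀ ψ ∈ Slice (T w).1 (T w).2, L w ψ ∈ Slice w.1 w.2 := by
    rintro w hw ψ ⟨hψ1, hψ2⟩
    have hpos : 0 < ‖f₁ w‖ := hρ₀0.trans_le (hρ w hw)
    refine ⟨?_, ?_⟩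
    · refine ContinuousLinearMap.opNorm_le_bound _ zero_le_one fun y => ?_
      rw [hL, one_mul]
      have h1 := h.pair (hs1 w hw) (norm_nonneg (p₁ y)) (norm_nonneg (p₂ y))
      rw [← h.norm] at h1
      have h2 : |ψ (p₁ y)| ≤ ‖p₁ y‖ := by
        have := ψ.le_of_opNorm_le hψ1 (p₁ y)
        rwa [one_mul] at this
      have h3 : |f₂ w (p₂ y)| ≤ ‖f₂ w‖ * ‖p₂ y‖ := (f₂ w).le_opNorm _
      have h4 : ‖f₁ w‖ * |ψ (p₁ y)| ≤ ‖f₁ w‖ * ‖p₁ y‖ := mul_le_mul_of_nonneg_left h2 hpos.le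
      calc ‖‖f₁ w‖ * ψ (p₁ y) + f₂ w (p₂ y)‖
          ≤ ‖f₁ w‖ * |ψ (p₁ y)| + |f₂ w (p₂ y)| := by
            refine (norm_add_le _ _).trans ?_
            rw [norm_mul, norm_norm, Real.norm_eq_abs, Real.norm_eq_abs]
        _ ≤ ‖f₁ w‖ * ‖p₁ y‖ + ‖f₂ w‖ * ‖p₂ y‖ := by linarith
        _ ≤ ‖y‖ := h1
    · rw [hL]
      have h1 : (w.2 - f₂ w (p₂ w.1)) / ‖f₁ w‖ < ψ (p₁ w.1) := hψ2
      rw [div_lt_iff₀ hpos] at h1
      linarith
  obtain ⟨u, hu1, hu2, hu3⟩ := H (W.image T) (G.image fun g => g.comp i₁.toContinuousLinearMap) (by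
    intro w' hw'
    obtain ⟨w, hw, rfl⟩ := Finset.mem_image.1 hw'
    have hpos : 0 < ‖f₁ w‖ := hρ₀0.trans_le (hρ w hw)
    refine ⟨⟨‖f₁ w‖⁻¹ • f₁ w, ?_, ?_⟩, ?_⟩
    · rw [norm_smul, norm_inv, norm_norm, inv_mul_cancel₀ hpos.ne']
    · change (w.2 - f₂ w (p₂ w.1)) / ‖f₁ w‖ < ‖f₁ w‖⁻¹ * f₁ w (p₁ w.1)
      rw [div_lt_iff₀ hpos, mul_comm, mul_inv_cancel_left₀ hpos.ne']
      have h1 := (hs w hw).2
      rw [hdec] at h1
      linarith
    · intro ψ hψ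
      have h1 := (hW w hw).2 _ (hLS w hw ψ hψ)
      rw [hL, hxn] at h1
      have h2 : f₂ w (p₂ x) ≤ ‖f₂ w‖ * B := (le_abs_self _).trans ((f₂ w).le_opNorm _)
      have h3 := h.pair (hs1 w hw) hA0.le hB0
      have h3' : ‖f₁ w‖ * A + ‖f₂ w‖ * B ≤ N A B := h3
      have h4 : ‖f₁ w‖ * (A - ψ (p₁ x)) < η := by nlinarith
      have h5 : η ≤ ‖f₁ w‖ * η₁ := by
        have := hρ w hw
        nlinarith
      by_contra hlt
      push Not at hlt
      have h6 : ‖f₁ w‖ * η₁ ≤ ‖f₁ w‖ * (A - ψ (p₁ x)) :=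
        mul_le_mul_of_nonneg_left (by linarith) hpos.le
      linarith) ε hε
  refine ⟨i₁ u, by rw [i₁.norm_map]; exact hu1, fun g hg => ?_, fun w hw => ?_⟩
  · exact hu2 _ (Finset.mem_image_of_mem _ hg)
  · obtain ⟨ψ, hψ1, hψ2⟩ := hu3 (T w) (Finset.mem_image_of_mem _ hw)
    refine ⟨L w ψ, hLS w hw ψ hψ1, ?_⟩
    rw [hL, h.p₁i₁, h.p₂i₁, map_zero, add_zero]
    have h1 := hρ w hw
    have hpos : 0 < ‖f₁ w‖ := hρ₀0.trans_le h1
    nlinarith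

/-- scaled form of the condition `NLO` -/
lemma nlo_unit {w : E} (hn : NLO w) : ∃ s > (0:ℝ), ∃ η > (0:ℝ), ∀ e : E, ‖e‖ ≤ 1 →
    ‖w + s • e‖ + ‖w - s • e‖ ≤ 2 * ‖w‖ + 2 * s * ‖e‖ - η * ‖e‖ := by
  obtain ⟨s, hs, η, hη, hw⟩ := hn
  refine ⟨s, hs, min (2 * s) η, by positivity, fun e he => ?_⟩
  rcases eq_or_ne e 0 with rfl | he0
  · simp only [smul_zero, add_zero, sub_zero, norm_zero, mul_zero]
    linarith
  · have hn : 0 < ‖e‖ := norm_pos_iff.2 he0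
    have h1 := nlo_scale hs hη hw (s' := s * ‖e‖) (by positivity) (by nlinarith)
      (‖e‖⁻¹ • e) (by rw [norm_smul, norm_inv, norm_norm, inv_mul_cancel₀ hn.ne'])
    rw [smul_smul, mul_assoc, mul_inv_cancel₀ hn.ne', mul_one] at h1
    have h2 : min (2 * (s * ‖e‖)) (s * ‖e‖ * η / s) = min (2 * s) η * ‖e‖ := by
      have e1 : 2 * (s * ‖e‖) = 2 * s * ‖e‖ := by ring
      have e2 : s * ‖e‖ * η / s = η * ‖e‖ := by field_simp
      rw [e1, e2, ← min_mul_of_nonneg _ _ hn.le]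
    rw [h2] at h1
    linarith

end Pool.Agent.TH326.SF
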