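import Pool.Agent.TH326.SF.Abs

/-!
# `ℓ_p`-sums of two spaces
-/

set_option autoImplicit false
set_option linter.all false

open Set Metric Topology Filter
open scoped ENNReal NNReal

namespace Pool.Agent.TH326.SF

open Pool.Agent.H621R3.SG (NLO)

variable {E F X : Type*} [NormedAddCommGroup E] [NormedSpace ℝ E] [NormedAddCommGroup F]
  [NormedSpace ℝ F] [NormedAddCommGroup X] [NormedSpace ℝ X]

/-- scaled form of the condition `NLO` -/
lemma nlo_unit' {w : E} (hn : NLO w) : ∃ s₀ > (0:ℝ), ∃ κ > (0:ℝ), ∀ s, 0 < s → s ≤ s₀ →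
    ∀ e : E, ‖e‖ ≤ 1 →
    ‖w + s • e‖ + ‖w - s • e‖ ≤ 2 * ‖w‖ + 2 * s * ‖e‖ - s * κ * ‖e‖ := by
  obtain ⟨s₀, hs₀, η, hη, hw⟩ := hn
  refine ⟨s₀, hs₀, min 2 (η / s₀), by positivity, fun s hs hss e he => ?_⟩
  rcases eq_or_ne e 0 with rfl | he0
  · simp only [smul_zero, add_zero, sub_zero, norm_zero, mul_zero]
    linarith
  · have hn : 0 < ‖e‖ := norm_pos_iff.2 he0
    have h1 := nlo_scale hs₀ hη hw (s' := s * ‖e‖) (by positivity) (by nlinarith)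
      (‖e‖⁻¹ • e) (by rw [norm_smul, norm_inv, norm_norm, inv_mul_cancel₀ hn.ne'])
    rw [smul_smul, mul_assoc, mul_inv_cancel₀ hn.ne', mul_one] at h1
    have h2 : min (2 * (s * ‖e‖)) (s * ‖e‖ * η / s₀) = s * min 2 (η / s₀) * ‖e‖ := by
      have e1 : 2 * (s * ‖e‖) = 2 * (s * ‖e‖) := rfl
      have e2 : s * ‖e‖ * η / s₀ = η / s₀ * (s * ‖e‖) := by field_simp
      rw [e2, ← min_mul_of_nonneg _ _ (by positivity : 0 ≤ s * ‖e‖)]
      ring
    rw [h2] at h1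
    linarith

section

variable {i₁ : E →ₗᵢ[ℝ] X} {p₁ : X →L[ℝ] E} {i₂ : F →ₗᵢ[ℝ] X} {p₂ : X →L[ℝ] F}

lemma AbsSum.nlo_add (h : AbsSum (fun α β => α + β) i₁ p₁ i₂ p₂) {x : X} (h1 : NLO (p₁ x))
    (h2 : NLO (p₂ x)) : NLO x := by
  obtain ⟨s₁, hs₁, κ₁, hκ₁, H1⟩ := nlo_unit' h1
  obtain ⟨s₂, hs₂, κ₂, hκ₂, H2⟩ := nlo_unit' h2
  set s := min s₁ s₂ with hs
  have hs0 : 0 < s := by positivity
  set κ := min κ₁ κ₂ with hκ
  have hκ0 : 0 < κ := by positivity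
  refine ⟨s, hs0, s * κ, by positivity, fun u hu => ?_⟩
  have hu' : ‖p₁ u‖ + ‖p₂ u‖ = 1 := by rw [← hu, h.norm u]
  have e0 := norm_nonneg (p₁ u)
  have e0' := norm_nonneg (p₂ u)
  have e1 := H1 s hs0 (min_le_left _ _) (p₁ u) (by linarith)
  have e2 := H2 s hs0 (min_le_right _ _) (p₂ u) (by linarith)
  have e3 : s * κ * ‖p₁ u‖ ≤ s * κ₁ * ‖p₁ u‖ :=
    mul_le_mul_of_nonneg_right (mul_le_mul_of_nonneg_left (min_le_left _ _) hs0.le) e0
  have e4 : s * κ * ‖p₂ u‖ ≤ s * κ₂ * ‖p₂ u‖ :=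
    mul_le_mul_of_nonneg_right (mul_le_mul_of_nonneg_left (min_le_right _ _) hs0.le) e0'
  have e5 : ‖x‖ = ‖p₁ x‖ + ‖p₂ x‖ := h.norm x
  have e6 : ‖x + s • u‖ = ‖p₁ x + s • p₁ u‖ + ‖p₂ x + s • p₂ u‖ := by
    rw [h.norm, map_add, map_add, map_smul, map_smul]
  have e7 : ‖x - s • u‖ = ‖p₁ x - s • p₁ u‖ + ‖p₂ x - s • p₂ u‖ := by
    rw [h.norm, map_sub, map_sub, map_smul, map_smul]
  rw [e5, e6, e7]
  have e8 : s * κ = s * κ * (‖p₁ u‖ + ‖p₂ u‖) := by rw [hu', mul_one]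
  have e9 : s = s * (‖p₁ u‖ + ‖p₂ u‖) := by rw [hu', mul_one]
  nlinarith

lemma AbsSum.nlo_rpow {p : ℝ} (hp : 1 < p)
    (h : AbsSum (fun α β => (α ^ p + β ^ p) ^ (1 / p)) i₁ p₁ i₂ p₂) {x : X} (hx : p₁ x ≠ 0)
    (h1 : NLO (p₁ x)) : NLO x := by
  obtain ⟨s, hs, κ, hκ, H⟩ := nlo_unit' h1
  have hp0 : 0 < p := by linarith
  set A := ‖p₁ x‖ with hA
  set B := ‖p₂ x‖ with hB
  set n := ‖x‖ with hn
  have hA0 : 0 < A := norm_pos_iff.2 hx
  have hB0 : 0 ≤ B := norm_nonneg _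
  have hpow : ∀ y : X, ‖y‖ ^ p = ‖p₁ y‖ ^ p + ‖p₂ y‖ ^ p := by
    intro y
    have h0 : 0 ≤ ‖p₁ y‖ ^ p + ‖p₂ y‖ ^ p := by positivity
    have := h.norm y
    rw [this, ← Real.rpow_mul h0, one_div_mul_cancel hp0.ne', Real.rpow_one]
  have hnp : n ^ p = A ^ p + B ^ p := hpow x
  have hn0 : 0 < n := by
    apply norm_pos_iff.2
    rintro rfl
    simp at hx
  have hAn : A ≤ n := by
    have h2 : A ^ p ≤ n ^ p := by
      rw [hnp]
      have : 0 ≤ B ^ p := by positivity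
      linarith
    exact (Real.rpow_le_rpow_iff hA0.le hn0.le hp0).1 h2
  set a := A / n with ha
  set b := B / n with hb
  have ha0 : 0 < a := by positivity
  have hb0 : 0 ≤ b := by positivity
  have hab : a ^ p + b ^ p = 1 := by
    rw [ha, hb, Real.div_rpow hA0.le hn0.le, Real.div_rpow hB0 hn0.le, ← add_div, ← hnp,
      div_self (by positivity)]
  set l := n / (n + s) with hl
  set μ := s / (n + s) with hμ
  have hl0 : 0 < l := by positivity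
  have hμ0 : 0 < μ := by positivity
  have hlμ : l + μ = 1 := by rw [hl, hμ, ← add_div, div_self (by positivity)]
  have hMa : ∀ τ, A + s * τ = (n + s) * (l * a + μ * τ) := by
    intro τ
    rw [hl, hμ, ha]
    field_simp
  have hMb : ∀ τ, B + s * τ = (n + s) * (l * b + μ * τ) := by
    intro τ
    rw [hl, hμ, hb]
    field_simp
  -- the deficiency for small first coordinate
  obtain ⟨δ₀, hδ₀, hδ⟩ : ∃ δ₀ > (0:ℝ), ∀ τ, 0 ≤ τ → τ ≤ a / 2 →
      (l * a + μ * τ) ^ p ≤ l * a ^ p + μ * τ ^ p - δ₀ := by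
    have hcont : ContinuousOn (fun τ : ℝ => l * a ^ p + μ * τ ^ p - (l * a + μ * τ) ^ p)
        (Icc 0 (a / 2)) := by
      apply Continuous.continuousOn
      have c1 : Continuous fun τ : ℝ => τ ^ p := Real.continuous_rpow_const hp0.le
      have c2 : Continuous fun τ : ℝ => (l * a + μ * τ) ^ p :=
        c1.comp (continuous_const.add (continuous_const.mul continuous_id))
      exact (continuous_const.add (continuous_const.mul c1)).sub c2
    obtain ⟨τ₀, hτ₀, hmin⟩ := isCompact_Icc.exists_isMinOn (nonempty_Icc.2 (by positivity)) hcont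
    refine ⟨l * a ^ p + μ * τ₀ ^ p - (l * a + μ * τ₀) ^ p, ?_, fun τ hτ0 hτ1 => ?_⟩
    · have hne : a ≠ τ₀ := by
        have := hτ₀.2
        intro h'
        linarith
      have := (strictConvexOn_rpow hp).2 (mem_Ici.2 ha0.le) (mem_Ici.2 hτ₀.1) hne hl0 hμ0 hlμ
      simp only [smul_eq_mul] at this
      have h3 : (l * a + μ * τ₀) ^ p < l * a ^ p + μ * τ₀ ^ p := this
      change 0 < _
      linarith
    · have := hmin (show τ ∈ Icc 0 (a / 2) from ⟨hτ0, hτ1⟩)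
      have h3 : l * a ^ p + μ * τ₀ ^ p - (l * a + μ * τ₀) ^ p ≤
          l * a ^ p + μ * τ ^ p - (l * a + μ * τ) ^ p := this
      linarith
  set η' := s * κ * a / 4 with hη'
  have hη'0 : 0 < η' := by positivity
  set δ := min (δ₀ * (n + s) ^ p) (η' ^ p) with hδdef
  have hδ0 : 0 < δ := by positivity
  set Z := (max 0 ((n + s) ^ p - δ)) ^ (1 / p) with hZ
  have hZlt : Z < n + s := by
    have h2 : max 0 ((n + s) ^ p - δ) < (n + s) ^ p := by
      apply max_lt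
      · positivity
      · linarith
    calc Z < ((n + s) ^ p) ^ (1 / p) :=
          Real.rpow_lt_rpow (le_max_left _ _) h2 (by positivity)
      _ = n + s := by
          rw [← Real.rpow_mul (by positivity), mul_one_div_cancel hp0.ne', Real.rpow_one]
  have hYZ : ∀ y : X, ‖y‖ ^ p ≤ (n + s) ^ p - δ → ‖y‖ ≤ Z := by
    intro y hy
    calc ‖y‖ = (‖y‖ ^ p) ^ (1 / p) := by
          rw [← Real.rpow_mul (norm_nonneg y), mul_one_div_cancel hp0.ne', Real.rpow_one]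
      _ ≤ Z := Real.rpow_le_rpow (by positivity) (hy.trans (le_max_right _ _)) (by positivity)
  refine ⟨s, hs, n + s - Z, by linarith, fun u hu => ?_⟩
  have hbase : ∀ y : X, (∃ z, ‖y‖ ≤ n + s ∧ z = y) → ‖y‖ ≤ n + s := fun y ⟨_, h', _⟩ => h'
  have hplus : ‖x + s • u‖ ≤ n + s := by
    refine (norm_add_le _ _).trans ?_
    rw [norm_smul, hu, mul_one, Real.norm_of_nonneg hs.le]
  have hminus : ‖x - s • u‖ ≤ n + s := by
    refine (norm_sub_le _ _).trans ?_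
    rw [norm_smul, hu, mul_one, Real.norm_of_nonneg hs.le]
  suffices hsuf : ‖x + s • u‖ ^ p ≤ (n + s) ^ p - δ ∨ ‖x - s • u‖ ^ p ≤ (n + s) ^ p - δ by
    rcases hsuf with h' | h'
    · have := hYZ _ h'
      linarith
    · have := hYZ _ h'
      linarith
  set τ₁ := ‖p₁ u‖ with hτ₁
  set τ₂ := ‖p₂ u‖ with hτ₂
  have hτ₁0 : 0 ≤ τ₁ := norm_nonneg _
  have hτ₂0 : 0 ≤ τ₂ := norm_nonneg _
  have hττ : τ₁ ^ p + τ₂ ^ p = 1 := by
    have := hpow u
    rw [hu, Real.one_rpow] at this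
    exact this.symm
  have hτ₁1 : τ₁ ≤ 1 := by
    have h2 : τ₁ ^ p ≤ 1 ^ p := by
      rw [Real.one_rpow]
      have : 0 ≤ τ₂ ^ p := by positivity
      linarith
    exact (Real.rpow_le_rpow_iff hτ₁0 zero_le_one hp0).1 h2
  have hb1 : (l * b + μ * τ₂) ^ p ≤ l * b ^ p + μ * τ₂ ^ p := by
    have := (convexOn_rpow hp.le).2 (mem_Ici.2 hb0) (mem_Ici.2 hτ₂0) hl0.le hμ0.le hlμ
    simpa only [smul_eq_mul] using this
  have ha1 : (l * a + μ * τ₁) ^ p ≤ l * a ^ p + μ * τ₁ ^ p := by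
    have := (convexOn_rpow hp.le).2 (mem_Ici.2 ha0.le) (mem_Ici.2 hτ₁0) hl0.le hμ0.le hlμ
    simpa only [smul_eq_mul] using this
  have hns : 0 < (n + s) ^ p := by positivity
  have hbM : (B + s * τ₂) ^ p ≤ (n + s) ^ p * (l * b ^ p + μ * τ₂ ^ p) := by
    rw [hMb, Real.mul_rpow (by positivity) (by positivity)]
    exact mul_le_mul_of_nonneg_left hb1 hns.le
  have hs1 : ‖s • p₁ u‖ = s * τ₁ := by rw [norm_smul, Real.norm_of_nonneg hs.le]
  have hs2 : ‖s • p₂ u‖ = s * τ₂ := by rw [norm_smul, Real.norm_of_nonneg hs.le]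
  have hβp : ‖p₂ x + s • p₂ u‖ ≤ B + s * τ₂ := by
    rw [← hs2]; exact norm_add_le _ _
  have hβm : ‖p₂ x - s • p₂ u‖ ≤ B + s * τ₂ := by
    rw [← hs2]; exact norm_sub_le _ _
  have hαp : ‖p₁ x + s • p₁ u‖ ≤ A + s * τ₁ := by
    rw [← hs1]; exact norm_add_le _ _
  have hpp : ‖x + s • u‖ ^ p = ‖p₁ x + s • p₁ u‖ ^ p + ‖p₂ x + s • p₂ u‖ ^ p := by
    rw [hpow, map_add, map_add, map_smul, map_smul]
  have hpm : ‖x - s • u‖ ^ p = ‖p₁ x - s • p₁ u‖ ^ p + ‖p₂ x - s • p₂ u‖ ^ p := by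
    rw [hpow, map_sub, map_sub, map_smul, map_smul]
  have htot : l * a ^ p + μ * τ₁ ^ p + (l * b ^ p + μ * τ₂ ^ p) = 1 := by
    have : l * a ^ p + μ * τ₁ ^ p + (l * b ^ p + μ * τ₂ ^ p) =
        l * (a ^ p + b ^ p) + μ * (τ₁ ^ p + τ₂ ^ p) := by ring
    rw [this, hab, hττ]
    linarith
  rcases le_total τ₁ (a / 2) with hcase | hcase
  · left
    have h2 : (A + s * τ₁) ^ p ≤ (n + s) ^ p * (l * a ^ p + μ * τ₁ ^ p - δ₀) := by
      rw [hMa, Real.mul_rpow (by positivity) (by positivity)]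
      exact mul_le_mul_of_nonneg_left (hδ τ₁ hτ₁0 hcase) hns.le
    have h3 : ‖p₁ x + s • p₁ u‖ ^ p ≤ (A + s * τ₁) ^ p :=
      Real.rpow_le_rpow (norm_nonneg _) hαp hp0.le
    have h4 : ‖p₂ x + s • p₂ u‖ ^ p ≤ (B + s * τ₂) ^ p :=
      Real.rpow_le_rpow (norm_nonneg _) hβp hp0.le
    have h5 : δ ≤ δ₀ * (n + s) ^ p := min_le_left _ _
    have h6 : (n + s) ^ p * (l * a ^ p + μ * τ₁ ^ p - δ₀) +
        (n + s) ^ p * (l * b ^ p + μ * τ₂ ^ p) =
        (n + s) ^ p * (l * a ^ p + μ * τ₁ ^ p + (l * b ^ p + μ * τ₂ ^ p)) -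
          δ₀ * (n + s) ^ p := by ring
    rw [htot, mul_one] at h6
    rw [hpp]
    linarith
  · have hH := H s hs le_rfl (p₁ u) hτ₁1
    have hM : η' ≤ A + s * τ₁ ∨ True := Or.inr trivial
    have hkey : ∀ α, 0 ≤ α → α ≤ A + s * τ₁ - η' → α ^ p ≤ (A + s * τ₁) ^ p - η' ^ p := by
      intro α hα hαle
      have h2 : 0 ≤ A + s * τ₁ - η' := hα.trans hαle
      have h3 := NNReal.add_rpow_le_rpow_add ⟨A + s * τ₁ - η', h2⟩ ⟨η', hη'0.le⟩ hp.le
      have h4 : (A + s * τ₁ - η') ^ p + η' ^ p ≤ (A + s * τ₁ - η' + η') ^ p := by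
        exact_mod_cast h3
      rw [sub_add_cancel] at h4
      have h5 : α ^ p ≤ (A + s * τ₁ - η') ^ p := Real.rpow_le_rpow hα hαle hp0.le
      linarith
    have h2 : (A + s * τ₁) ^ p ≤ (n + s) ^ p * (l * a ^ p + μ * τ₁ ^ p) := by
      rw [hMa, Real.mul_rpow (by positivity) (by positivity)]
      exact mul_le_mul_of_nonneg_left ha1 hns.le
    have h5 : δ ≤ η' ^ p := min_le_right _ _
    have h6 : (n + s) ^ p * (l * a ^ p + μ * τ₁ ^ p) +
        (n + s) ^ p * (l * b ^ p + μ * τ₂ ^ p) =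
        (n + s) ^ p * (l * a ^ p + μ * τ₁ ^ p + (l * b ^ p + μ * τ₂ ^ p)) := by ring
    rw [htot, mul_one] at h6
    have hη'le : 2 * η' ≤ s * κ * τ₁ := by
      rw [hη']
      have : s * κ * (a / 2) ≤ s * κ * τ₁ := mul_le_mul_of_nonneg_left hcase (by positivity)
      linarith
    rcases le_total ‖p₁ x + s • p₁ u‖ ‖p₁ x - s • p₁ u‖ with hle | hle
    · left
      have h7 := hkey ‖p₁ x + s • p₁ u‖ (norm_nonneg _) (by linarith)
      have h4 : ‖p₂ x + s • p₂ u‖ ^ p ≤ (B + s * τ₂) ^ p :=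
        Real.rpow_le_rpow (norm_nonneg _) hβp hp0.le
      rw [hpp]
      linarith
    · right
      have h7 := hkey ‖p₁ x - s • p₁ u‖ (norm_nonneg _) (by linarith)
      have h4 : ‖p₂ x - s • p₂ u‖ ^ p ≤ (B + s * τ₂) ^ p :=
        Real.rpow_le_rpow (norm_nonneg _) hβm hp0.le
      rw [hpm]
      linarith

/-- `ℓ_p`-sums, `1 < p < ∞`, with one good nonzero summand are good -/
theorem AbsSum.good_rpow {p : ℝ} (hp : 1 < p)
    (h : AbsSum (fun α β => (α ^ p + β ^ p) ^ (1 / p)) i₁ p₁ i₂ p₂) [Nontrivial E] (hE : Good E) :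
    Good X := by
  unfold Good
  rw [Metric.dense_iff]
  intro x₀ ε hε
  have hd : Dense ({v : E | NLO v ∨ SR v} ∩ {v : E | v ≠ 0}) :=
    hE.inter_of_isOpen_right (dense_compl_singleton (0 : E)) isOpen_ne
  obtain ⟨v, hv, hvd⟩ := hd.exists_dist_lt (p₁ x₀) hε
  refine ⟨i₁ v + i₂ (p₂ x₀), ?_, ?_⟩
  · rw [mem_ball, dist_eq_norm]
    have h1 : i₁ v + i₂ (p₂ x₀) - x₀ = i₁ (v - p₁ x₀) := by
      conv_lhs => rw [← h.eq x₀]
      rw [map_add, h.p₂i₁, h.p₂i₂, zero_add, map_sub]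
      abel
    rw [h1, i₁.norm_map, ← dist_eq_norm, dist_comm]
    exact hvd
  · have h2 : p₁ (i₁ v + i₂ (p₂ x₀)) = v := by
      rw [map_add, h.p₁i₁, h.p₁i₂, add_zero]
    rcases hv.1 with h3 | h3
    · exact Or.inl (h.nlo_rpow hp (by rw [h2]; exact hv.2) (by rw [h2]; exact h3))
    · exact Or.inr (h.sr (by rw [h2]; exact hv.2) (by rw [h2]; exact h3))

end

end Pool.Agent.TH326.SF
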