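import Pool.Agent.TH326.SF.Abs2

/-!
# `ℓ_p`-sums of two spaces: the spaces `WithLp p (E × F)` and `lp T 1`
-/

set_option autoImplicit false
set_option linter.all false

open Set Metric Topology Filter
open scoped ENNReal NNReal

namespace Pool.Agent.TH326.SF

open Pool.Agent.H621R3.SG (NLO)

section

variable {E F X : Type*} [NormedAddCommGroup E] [NormedSpace ℝ E] [NormedAddCommGroup F]
  [NormedSpace ℝ F] [NormedAddCommGroup X] [NormedSpace ℝ X]
  {i₁ : E →ₗᵢ[ℝ] X} {p₁ : X →L[ℝ] E} {i₂ : F →ₗᵢ[ℝ] X} {p₂ : X →L[ℝ] F}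

lemma dense_good' (hE : Good E) : Dense {v : E | NLO v ∨ (SR v ∧ v ≠ 0)} := by
  rcases subsingleton_or_nontrivial E with hs | hn
  · have : {v : E | NLO v ∨ (SR v ∧ v ≠ 0)} = univ := by
      apply eq_univ_of_forall
      intro v
      refine Or.inl ⟨1, one_pos, 1, one_pos, fun u hu => ?_⟩
      rw [Subsingleton.elim u 0, norm_zero] at hu
      norm_num at hu
    rw [this]
    exact dense_univ
  · have hd : Dense ({v : E | NLO v ∨ SR v} ∩ {v : E | v ≠ 0}) :=
      hE.inter_of_isOpen_right (dense_compl_singleton (0 : E)) isOpen_ne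
    refine hd.mono ?_
    rintro v ⟨h1 | h1, h2⟩
    · exact Or.inl h1
    · exact Or.inr ⟨h1, h2⟩

lemma AbsSum.swap_add (h : AbsSum (fun α β => α + β) i₁ p₁ i₂ p₂) :
    AbsSum (fun α β => α + β) i₂ p₂ i₁ p₁ where
  p₁i₁ := h.p₂i₂
  p₂i₂ := h.p₁i₁
  p₁i₂ := h.p₂i₁
  p₂i₁ := h.p₁i₂
  eq := fun x => by rw [add_comm]; exact h.eq x
  norm := fun x => by rw [h.norm x]; exact add_comm _ _
  mono := h.mono
  lt := h.lt

/-- `ℓ₁`-sums of good spaces are good -/
theorem AbsSum.good_add (h : AbsSum (fun α β => α + β) i₁ p₁ i₂ p₂) (hE : Good E) (hF : Good F) :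
    Good X := by
  unfold Good
  rw [Metric.dense_iff]
  intro x₀ ε hε
  obtain ⟨v, hv, hvd⟩ := (dense_good' hE).exists_dist_lt (p₁ x₀) (half_pos hε)
  obtain ⟨w, hw, hwd⟩ := (dense_good' hF).exists_dist_lt (p₂ x₀) (half_pos hε)
  have e1 : p₁ (i₁ v + i₂ w) = v := by rw [map_add, h.p₁i₁, h.p₁i₂, add_zero]
  have e2 : p₂ (i₁ v + i₂ w) = w := by rw [map_add, h.p₂i₁, h.p₂i₂, zero_add]
  refine ⟨i₁ v + i₂ w, ?_, ?_⟩
  · rw [mem_ball, dist_eq_norm]
    have h1 : i₁ v + i₂ w - x₀ = i₁ (v - p₁ x₀) + i₂ (w - p₂ x₀) := by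
      conv_lhs => rw [← h.eq x₀]
      rw [map_sub, map_sub]
      abel
    rw [h1]
    refine (norm_add_le _ _).trans_lt ?_
    rw [i₁.norm_map, i₂.norm_map, ← dist_eq_norm, ← dist_eq_norm, dist_comm v, dist_comm w]
    linarith
  · rcases hv with h3 | ⟨h3, h4⟩
    · rcases hw with h5 | ⟨h5, h6⟩
      · exact Or.inl (h.nlo_add (by rwa [e1]) (by rwa [e2]))
      · exact Or.inr (h.swap_add.sr (by rwa [e2]) (by rwa [e2]))
    · exact Or.inr (h.sr (by rwa [e1]) (by rwa [e1]))

end

section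

variable {E F : Type*} [NormedAddCommGroup E] [NormedSpace ℝ E] [NormedAddCommGroup F]
  [NormedSpace ℝ F]

/-- the embedding of the first factor -/
noncomputable def inlP (p : ℝ≥0∞) [Fact (1 ≤ p)] (E F : Type*) [NormedAddCommGroup E]
    [NormedSpace ℝ E] [NormedAddCommGroup F] [NormedSpace ℝ F] : E →ₗᵢ[ℝ] WithLp p (E × F) where
  toFun := fun e => WithLp.toLp p (e, (0 : F))
  map_add' := fun e e' => by
    rw [← WithLp.toLp_add, Prod.mk_add_mk, add_zero]
  map_smul' := fun c e => by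
    rw [RingHom.id_apply, ← WithLp.toLp_smul, Prod.smul_mk, smul_zero]
  norm_map' := fun e => WithLp.norm_toLp_fst p E F e

/-- the embedding of the second factor -/
noncomputable def inrP (p : ℝ≥0∞) [Fact (1 ≤ p)] (E F : Type*) [NormedAddCommGroup E]
    [NormedSpace ℝ E] [NormedAddCommGroup F] [NormedSpace ℝ F] : F →ₗᵢ[ℝ] WithLp p (E × F) where
  toFun := fun e => WithLp.toLp p ((0 : E), e)
  map_add' := fun e e' => by
    rw [← WithLp.toLp_add, Prod.mk_add_mk, add_zero]
  map_smul' := fun c e => by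
    rw [RingHom.id_apply, ← WithLp.toLp_smul, Prod.smul_mk, smul_zero]
  norm_map' := fun e => WithLp.norm_toLp_snd p E F e

/-- the first coordinate -/
noncomputable def fstP (p : ℝ≥0∞) [Fact (1 ≤ p)] (E F : Type*) [NormedAddCommGroup E]
    [NormedSpace ℝ E] [NormedAddCommGroup F] [NormedSpace ℝ F] : WithLp p (E × F) →L[ℝ] E :=
  WithLp.fstL p ℝ E F

/-- the second coordinate -/
noncomputable def sndP (p : ℝ≥0∞) [Fact (1 ≤ p)] (E F : Type*) [NormedAddCommGroup E]
    [NormedSpace ℝ E] [NormedAddCommGroup F] [NormedSpace ℝ F] : WithLp p (E × F) →L[ℝ] F :=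
  WithLp.sndL p ℝ E F

lemma withLp_abs (p : ℝ≥0∞) [Fact (1 ≤ p)] (hp : p ≠ ∞) :
    AbsSum (fun α β => (α ^ p.toReal + β ^ p.toReal) ^ (1 / p.toReal)) (inlP p E F) (fstP p E F)
      (inrP p E F) (sndP p E F) := by
  have hp1 : 1 ≤ p.toReal := by
    have h1 : (1 : ℝ≥0∞) ≤ p := Fact.out
    have := ENNReal.toReal_mono hp h1
    simpa using this
  have hp0 : 0 < p.toReal := by linarith
  exact {
    p₁i₁ := fun e => rfl
    p₂i₂ := fun e => rfl
    p₁i₂ := fun e => rfl
    p₂i₁ := fun e => rfl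
    eq := fun x => by
      change WithLp.toLp p (x.fst, (0 : F)) + WithLp.toLp p ((0 : E), x.snd) = x
      rw [← WithLp.toLp_add, Prod.mk_add_mk, add_zero, zero_add]
      rfl
    norm := fun x => WithLp.prod_norm_eq_add hp0 x
    mono := fun α α' β β' hα hβ h1 h2 => by
      apply Real.rpow_le_rpow (by positivity) _ (by positivity)
      exact add_le_add (Real.rpow_le_rpow hα h1 hp0.le) (Real.rpow_le_rpow hβ h2 hp0.le)
    lt := fun A B hA hB => by
      calc B = (B ^ p.toReal) ^ (1 / p.toReal) := by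
            rw [← Real.rpow_mul hB, mul_one_div_cancel hp0.ne', Real.rpow_one]
        _ < _ := by
            apply Real.rpow_lt_rpow (by positivity) _ (by positivity)
            have : 0 < A ^ p.toReal := by positivity
            linarith }

/-- `ℓ₁`-sums of two good spaces -/
theorem good_withLp_one (hE : Good E) (hF : Good F) : Good (WithLp 1 (E × F)) := by
  have h := withLp_abs (E := E) (F := F) 1 ENNReal.one_ne_top
  have hN : (fun α β : ℝ => (α ^ (1 : ℝ≥0∞).toReal + β ^ (1 : ℝ≥0∞).toReal) ^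
      (1 / (1 : ℝ≥0∞).toReal)) = fun α β : ℝ => α + β := by
    funext α β
    simp
  rw [hN] at h
  exact h.good_add hE hF

/-- `ℓ_p`-sums with a good nonzero space, `1 < p < ∞` -/
theorem good_withLp (p : ℝ≥0∞) [Fact (1 ≤ p)] (hp1 : 1 < p) (hp : p ≠ ∞) [Nontrivial E]
    (hE : Good E) : Good (WithLp p (E × F)) := by
  have hp1' : 1 < p.toReal := by
    have := (ENNReal.toReal_lt_toReal ENNReal.one_ne_top hp).2 hp1
    simpa using this
  exact (withLp_abs (E := E) (F := F) p hp).good_rpow hp1' hE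

end

section

variable {I : Type*} [DecidableEq I] {T : I → Type*} [∀ k, NormedAddCommGroup (T k)]
  [∀ k, NormedSpace ℝ (T k)]

/-- the `ℓ₁`-sum of infinitely many nonzero spaces is good -/
theorem good_lp_one (hT : {k | Nontrivial (T k)}.Infinite) : Good (lp T 1) := by
  apply good_of_octahedral
  intro F hF ε hε
  have hnorm : ∀ x : lp T 1, ‖x‖ = ∑' k, ‖x k‖ := by
    intro x
    have := lp.norm_eq_tsum_rpow (p := 1) (by simp) x
    simpa using this
  have hsum : ∀ x : lp T 1, Summable fun k => ‖x k‖ := by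
    intro x
    have := (lp.memℓp x).summable (p := 1) (by simp)
    simpa using this
  have hfin : ∀ x : lp T 1, {k | ε / 2 ≤ ‖x k‖}.Finite := by
    intro x
    have h1 := (hsum x).tendsto_cofinite_zero
    have h2 : ∀ᶠ k in cofinite, ‖x k‖ < ε / 2 := h1.eventually_lt_const (half_pos hε)
    rw [Filter.eventually_cofinite] at h2
    simpa only [not_lt] using h2
  have hall : (⋃ x ∈ (F : Set (lp T 1)), {k | ε / 2 ≤ ‖x k‖}).Finite :=
    F.finite_toSet.biUnion fun x _ => hfin x
  obtain ⟨k, hk1, hk2⟩ := (hT.diff hall).nonempty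
  have hk1' : Nontrivial (T k) := hk1
  obtain ⟨e, he⟩ := exists_norm_eq (T k) (zero_le_one : (0:ℝ) ≤ 1)
  refine ⟨lp.single 1 k e, ?_, fun x hx => ?_⟩
  · rw [lp.norm_single (by simp), he]
  · have hxk : ‖x k‖ < ε / 2 := by
      by_contra hlt
      push Not at hlt
      exact hk2 (mem_biUnion hx hlt)
    have h1 : ‖x‖ = ‖x k‖ + ∑' j, (if j = k then 0 else ‖x j‖) := by
      rw [hnorm]
      exact (hsum x).tsum_eq_add_tsum_ite k
    have h2 : ‖x + lp.single 1 k e‖ = ‖x k + e‖ + ∑' j, (if j = k then 0 else ‖x j‖) := by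
      rw [hnorm, (hsum (x + lp.single 1 k e)).tsum_eq_add_tsum_ite k]
      congr 1
      · rw [lp.coeFn_add, Pi.add_apply, lp.single_apply_self]
      · apply tsum_congr
        intro j
        by_cases hj : j = k
        · simp [hj]
        · rw [if_neg hj, if_neg hj, lp.coeFn_add, Pi.add_apply, lp.single_apply_ne _ _ _ hj,
            add_zero]
    have h3 : ‖e‖ - ‖x k‖ ≤ ‖x k + e‖ := by
      have := norm_sub_le (x k + e) (x k)
      rw [add_sub_cancel_left] at this
      linarith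
    have h4 := hF x hx
    rw [he] at h3
    rw [h2]
    linarith

end

end Pool.Agent.TH326.SF
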