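import Pool.Agent.TH326.SF.Abs3

/-!
# Infinite `ℓ_p`-sums, `1 < p < ∞`
-/

set_option autoImplicit false
set_option linter.all false

open Set Metric Topology Filter
open scoped ENNReal NNReal

namespace Pool.Agent.TH326.SF

variable {I : Type*} [DecidableEq I] {T : I → Type*} [∀ k, NormedAddCommGroup (T k)]
  [∀ k, NormedSpace ℝ (T k)]

/-- the embedding of a coordinate space -/
noncomputable def singP (p : ℝ≥0∞) [Fact (1 ≤ p)] (k : I) : T k →ₗᵢ[ℝ] lp T p where
  toLinearMap := lp.lsingle (𝕜 := ℝ) (E := T) p k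
  norm_map' := fun e => by
    have hp0 : 0 < p := lt_of_lt_of_le zero_lt_one (Fact.out : 1 ≤ p)
    exact lp.norm_single hp0 k e

/-- the sequences that vanish at `k` -/
noncomputable abbrev Ker (p : ℝ≥0∞) [Fact (1 ≤ p)] (T : I → Type*) [∀ k, NormedAddCommGroup (T k)]
    [∀ k, NormedSpace ℝ (T k)] (k : I) : Submodule ℝ (lp T p) :=
  LinearMap.ker (lp.evalCLM ℝ T p k).toLinearMap

/-- the complementary projection -/
noncomputable def complP (p : ℝ≥0∞) [Fact (1 ≤ p)] (k : I) : lp T p →L[ℝ] Ker p T k :=
  ContinuousLinearMap.codRestrict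
    (ContinuousLinearMap.id ℝ (lp T p) -
      (singP (T := T) p k).toContinuousLinearMap.comp (lp.evalCLM ℝ T p k)) (Ker p T k) (by
    intro x
    rw [LinearMap.mem_ker]
    change (x - lp.single p k (x k) : lp T p) k = 0
    rw [lp.coeFn_sub, Pi.sub_apply, lp.single_apply_self, sub_self])

lemma lp_abs (p : ℝ≥0∞) [Fact (1 ≤ p)] (hp : p ≠ ∞) (k : I) :
    AbsSum (fun α β => (α ^ p.toReal + β ^ p.toReal) ^ (1 / p.toReal)) (singP (T := T) p k)
      (lp.evalCLM ℝ T p k) (Ker p T k).subtypeₗᵢ (complP (T := T) p k) := by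
  have hp1 : 1 ≤ p.toReal := by
    have h1 : (1 : ℝ≥0∞) ≤ p := Fact.out
    have := ENNReal.toReal_mono hp h1
    simpa using this
  have hp0 : 0 < p.toReal := by linarith
  have hcompl : ∀ x : lp T p, ((complP (T := T) p k x : Ker p T k) : lp T p) =
      x - lp.single p k (x k) := fun x => rfl
  have heval : ∀ x : lp T p, lp.evalCLM ℝ T p k x = x k := fun x => rfl
  have hsing : ∀ e : T k, singP (T := T) p k e = lp.single p k e := fun e => rfl
  exact {
    p₁i₁ := fun e => by
      rw [heval, hsing, lp.single_apply_self]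
    p₂i₂ := fun y => by
      apply Subtype.ext
      rw [hcompl]
      have hy : (y : lp T p) k = 0 := y.2
      change (y : lp T p) - lp.single p k ((y : lp T p) k) = y
      rw [hy]
      have : (lp.single p k (0 : T k) : lp T p) = 0 := by
        rw [← hsing, map_zero]
      rw [this, sub_zero]
    p₁i₂ := fun y => y.2
    p₂i₁ := fun e => by
      apply Subtype.ext
      rw [hcompl, hsing, lp.single_apply_self, sub_self]
      rfl
    eq := fun x => by
      rw [heval, hsing]
      change lp.single p k (x k) + ((complP (T := T) p k x : Ker p T k) : lp T p) = x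
      rw [hcompl]
      abel
    norm := fun x => by
      have h1 := lp.norm_compl_sum_single hp0 x {k}
      rw [Finset.sum_singleton, Finset.sum_singleton] at h1
      have h2 : ‖complP (T := T) p k x‖ = ‖x - lp.single p k (x k)‖ := rfl
      change ‖x‖ = (‖x k‖ ^ p.toReal + ‖complP (T := T) p k x‖ ^ p.toReal) ^ (1 / p.toReal)
      rw [h2, h1]
      have h3 : ‖x k‖ ^ p.toReal + (‖x‖ ^ p.toReal - ‖x k‖ ^ p.toReal) = ‖x‖ ^ p.toReal := by ring
      rw [h3, ← Real.rpow_mul (norm_nonneg x), mul_one_div_cancel hp0.ne', Real.rpow_one]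
    mono := fun α α' β β' hα hβ h1 h2 => by
      apply Real.rpow_le_rpow (by positivity) _ (by positivity)
      exact add_le_add (Real.rpow_le_rpow hα h1 hp0.le) (Real.rpow_le_rpow hβ h2 hp0.le)
    lt := fun A B hA hB => by
      calc B = (B ^ p.toReal) ^ (1 / p.toReal) := by
            rw [← Real.rpow_mul hB, mul_one_div_cancel hp0.ne', Real.rpow_one]
        _ < _ := by
            apply Real.rpow_lt_rpow (by positivity) _ (by positivity)
            have : 0 < A ^ p.toReal := by positivity
            linarith }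

/-- `ℓ_p`-sums, `1 < p < ∞`, in which one nonzero summand is good -/
theorem good_lp_p (p : ℝ≥0∞) [Fact (1 ≤ p)] (hp1 : 1 < p) (hp : p ≠ ∞) (k : I) [Nontrivial (T k)]
    (hk : Good (T k)) : Good (lp T p) := by
  have hp1' : 1 < p.toReal := by
    have := (ENNReal.toReal_lt_toReal ENNReal.one_ne_top hp).2 hp1
    simpa using this
  exact (lp_abs (T := T) p hp k).good_rpow hp1' hk

end Pool.Agent.TH326.SF
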