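import Pool.Agent.TH326.SF.Fun1

/-!
# Function spaces: density of the good points
-/

set_option autoImplicit false
set_option linter.all false

open Set Metric Topology Filter
open scoped BoundedContinuousFunction

namespace Pool.Agent.TH326.SF

open Pool.Agent.H621R3.SG (NLO)

variable {E S : Type*} [NormedAddCommGroup E] [NormedSpace ℝ E] [TopologicalSpace S]

/-- signed evaluation -/
noncomputable def ev (J : E →ₗᵢ[ℝ] (S →ᵇ ℝ)) (σ : ℝ) (t : S) : StrongDual ℝ E :=
  σ • ((BoundedContinuousFunction.evalCLM ℝ t).comp J.toContinuousLinearMap)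

lemma ev_apply (J : E →ₗᵢ[ℝ] (S →ᵇ ℝ)) (σ : ℝ) (t : S) (e : E) : ev J σ t e = σ * J e t := rfl

lemma abs_le_norm (J : E →ₗᵢ[ℝ] (S →ᵇ ℝ)) (e : E) (t : S) : |J e t| ≤ ‖e‖ := by
  have := (J e).norm_coe_le_norm t
  rwa [J.norm_map] at this

lemma norm_le_of (J : E →ₗᵢ[ℝ] (S →ᵇ ℝ)) {e : E} {C : ℝ} (hC : 0 ≤ C) (h : ∀ t, |J e t| ≤ C) :
    ‖e‖ ≤ C := by
  rw [← J.norm_map]
  exact (BoundedContinuousFunction.norm_le hC).2 h

lemma norm_ev_le (J : E →ₗᵢ[ℝ] (S →ᵇ ℝ)) {σ : ℝ} (hσ : |σ| = 1) (t : S) : ‖ev J σ t‖ ≤ 1 := by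
  refine ContinuousLinearMap.opNorm_le_bound _ zero_le_one fun e => ?_
  rw [ev_apply, Real.norm_eq_abs, abs_mul, hσ]
  exact mul_le_mul_of_nonneg_left (abs_le_norm J e t) zero_le_one

lemma exists_sign (a : ℝ) : ∃ σ : ℝ, |σ| = 1 ∧ σ * a = |a| := by
  rcases le_total 0 a with h | h
  · exact ⟨1, by simp, by rw [one_mul, abs_of_nonneg h]⟩
  · exact ⟨-1, by simp, by rw [abs_of_nonpos h]; ring⟩

lemma near_nlo {J : E →ₗᵢ[ℝ] (S →ᵇ ℝ)} (hJ : Regular J) (f : E) {ε : ℝ} (hε : 0 < ε) {t₀ : S}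
    (ht₀ : IsOpen ({t₀} : Set S)) (hft : ‖f‖ - ε / 4 < |J f t₀|) : ∃ v, dist v f < ε ∧ NLO v := by
  obtain ⟨e, he0, he⟩ := hJ {t₀} ht₀ (singleton_nonempty _)
  have he1 : J e t₀ ≠ 0 := by
    intro h0
    apply he0
    apply J.injective
    rw [map_zero]
    ext t
    by_cases ht : t = t₀
    · rw [ht]; exact h0
    · exact he t ht
  set e₁ := (J e t₀)⁻¹ • e with he₁
  have h1 : J e₁ t₀ = 1 := by
    rw [he₁, map_smul]
    exact inv_mul_cancel₀ he1
  have h2 : ∀ t, t ≠ t₀ → J e₁ t = 0 := by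
    intro t ht
    rw [he₁, map_smul]
    have := he t ht
    simp [this]
  have h3 : ‖e₁‖ ≤ 1 := by
    apply norm_le_of J zero_le_one
    intro t
    by_cases ht : t = t₀
    · rw [ht, h1]; simp
    · rw [h2 t ht]; simp
  obtain ⟨σ, hσ1, hσ2⟩ := exists_sign (J f t₀)
  set v := f + (σ * (ε / 2)) • e₁ with hv
  have hσσ : σ * σ = 1 := by rw [← abs_mul_abs_self, hσ1]; norm_num
  have hvt₀ : J v t₀ = σ * (|J f t₀| + ε / 2) := by
    have : J v t₀ = J f t₀ + (σ * (ε / 2)) * J e₁ t₀ := by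
      rw [hv, map_add, map_smul]; rfl
    rw [this, h1, ← hσ2, mul_add, ← mul_assoc, hσσ]
    ring
  have hvt : ∀ t, t ≠ t₀ → J v t = J f t := by
    intro t ht
    have : J v t = J f t + (σ * (ε / 2)) * J e₁ t := by
      rw [hv, map_add, map_smul]; rfl
    rw [this, h2 t ht]
    ring
  refine ⟨v, ?_, ε / 16, by positivity, ε / 8, by positivity, ?_⟩
  · rw [dist_eq_norm, hv, add_sub_cancel_left, norm_smul, Real.norm_eq_abs, abs_mul, hσ1,
      abs_of_pos (by positivity : 0 < ε / 2)]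
    nlinarith
  · intro u hu
    set M := |J f t₀| + ε / 2 with hM
    have hM0 : ε / 2 ≤ M := by have := abs_nonneg (J f t₀); linarith
    have hMv : M ≤ ‖v‖ := by
      have := abs_le_norm J v t₀
      rw [hvt₀, abs_mul, hσ1, one_mul, abs_of_nonneg (by linarith)] at this
      exact this
    have hu0 : |J u t₀| ≤ 1 := hu ▸ abs_le_norm J u t₀
    have hσu : |σ * J u t₀| ≤ 1 := by rw [abs_mul, hσ1, one_mul]; exact hu0
    have hσu' := abs_le.1 hσu
    have hp : ‖v + (ε / 16) • u‖ ≤ M + ε / 16 * (σ * J u t₀) := by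
      apply norm_le_of J (by nlinarith)
      intro t
      have e0 : J (v + (ε / 16) • u) t = J v t + ε / 16 * J u t := by
        rw [map_add, map_smul]; rfl
      rw [e0]
      by_cases ht : t = t₀
      · rw [ht, hvt₀]
        have e1 : σ * M + ε / 16 * J u t₀ = σ * (M + ε / 16 * (σ * J u t₀)) := by
          linear_combination (-(ε / 16 * J u t₀)) * hσσ
        rw [e1, abs_mul, hσ1, one_mul, abs_of_nonneg (by nlinarith)]
      · rw [hvt t ht]
        have e1 : |J u t| ≤ 1 := hu ▸ abs_le_norm J u t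
        have e2 : |J f t| ≤ ‖f‖ := abs_le_norm J f t
        have e3 : |J f t + ε / 16 * J u t| ≤ |J f t| + ε / 16 * |J u t| := by
          refine (abs_add_le _ _).trans ?_
          rw [abs_mul, abs_of_pos (by positivity : 0 < ε / 16)]
        nlinarith
    have hm : ‖v - (ε / 16) • u‖ ≤ M - ε / 16 * (σ * J u t₀) := by
      apply norm_le_of J (by nlinarith)
      intro t
      have e0 : J (v - (ε / 16) • u) t = J v t - ε / 16 * J u t := by
        rw [map_sub, map_smul]; rfl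
      rw [e0]
      by_cases ht : t = t₀
      · rw [ht, hvt₀]
        have e1 : σ * M - ε / 16 * J u t₀ = σ * (M - ε / 16 * (σ * J u t₀)) := by
          linear_combination (ε / 16 * J u t₀) * hσσ
        rw [e1, abs_mul, hσ1, one_mul, abs_of_nonneg (by nlinarith)]
      · rw [hvt t ht]
        have e1 : |J u t| ≤ 1 := hu ▸ abs_le_norm J u t
        have e2 : |J f t| ≤ ‖f‖ := abs_le_norm J f t
        have e3 : |J f t - ε / 16 * J u t| ≤ |J f t| + ε / 16 * |J u t| := by
          refine (abs_sub _ _).trans ?_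
          rw [abs_mul, abs_of_pos (by positivity : 0 < ε / 16)]
        nlinarith
    linarith

lemma sr_of_no_isolated [T2Space S] [Nonempty S] {J : E →ₗᵢ[ℝ] (S →ᵇ ℝ)} (hJ : Regular J) (f : E)
    {ε : ℝ} (hε : 0 < ε) (hf : ∀ t₀ : S, IsOpen ({t₀} : Set S) → |J f t₀| ≤ ‖f‖ - ε) : SR f := by
  classical
  refine ⟨1 / 2, by norm_num, ε, hε, ?_⟩
  intro W Gf hW ε' hε'
  have hpt : ∀ w : W, ∃ (σ : ℝ) (t : S), |σ| = 1 ∧ w.1.2 < σ * J w.1.1 t := by
    rintro ⟨⟨c, β⟩, hw⟩
    obtain ⟨⟨φ, hφ1, hφ2⟩, -⟩ := hW _ hw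
    simp only at hφ2 ⊢
    have h1 : β < ‖c‖ := by
      have := φ.le_of_opNorm_le hφ1 c
      rw [one_mul] at this
      exact hφ2.trans_le ((le_abs_self _).trans this)
    obtain ⟨t, ht⟩ : ∃ t, β < |J c t| := by
      by_contra hno
      push Not at hno
      have hβ : 0 ≤ β := by
        obtain ⟨t⟩ := ‹Nonempty S›
        exact (abs_nonneg _).trans (hno t)
      exact absurd (norm_le_of J hβ hno) (not_le.2 h1)
    obtain ⟨σ, hσ1, hσ2⟩ := exists_sign (J c t)
    exact ⟨σ, t, hσ1, by rw [hσ2]; exact ht⟩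
  choose σ t hσ ht using hpt
  set G : W → Set S := fun w => {s | w.1.2 < σ w * J w.1.1 s} with hG
  have hGo : ∀ w, IsOpen (G w) := fun w =>
    isOpen_lt continuous_const (continuous_const.mul (J w.1.1).continuous)
  have hmem : ∀ w : W, ∀ s ∈ G w, ev J (σ w) s ∈ Slice w.1.1 w.1.2 := fun w s hs =>
    ⟨norm_ev_le J (hσ w) s, by rw [ev_apply]; exact hs⟩
  have hGinf : ∀ w, (G w).Infinite := by
    intro w
    have h1 : ¬ IsOpen ({t w} : Set S) := by
      intro hop
      have h2 := (hW w.1 w.2).2 _ (hmem w (t w) (ht w))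
      rw [ev_apply] at h2
      have h3 : σ w * J f (t w) ≤ |J f (t w)| := by
        refine (le_abs_self _).trans ?_
        rw [abs_mul, hσ, one_mul]
      have h4 := hf (t w) hop
      linarith
    rw [isOpen_singleton_iff_punctured_nhds] at h1
    haveI : NeBot (𝓝[≠] (t w)) := ⟨h1⟩
    exact infinite_of_mem_nhds (t w) ((hGo w).mem_nhds (ht w))
  obtain ⟨u, hu1, hu2, hu3⟩ := exists_bumps hJ hGinf hGo
    (g := fun i : Fin Gf.card => (Gf.equivFin.symm i).1)
  have hs : ∀ w : W, ∃ s, 1 / 2 < |J (u w) s| := by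
    intro w
    by_contra hno
    push Not at hno
    have := norm_le_of J (by norm_num) hno
    rw [hu1] at this
    norm_num at this
  choose s hs using hs
  choose θ hθ1 hθ2 using fun w : W => exists_sign (σ w * J (u w) (s w))
  refine ⟨∑ w : W, (-θ w) • u w, ?_, ?_, ?_⟩
  · apply norm_le_of J zero_le_one
    intro x
    have e0 : J (∑ w : W, (-θ w) • u w) x = ∑ w : W, (-θ w) * J (u w) x := by
      simp only [map_sum, map_smul]
      rw [BoundedContinuousFunction.coe_sum]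
      simp
    rw [e0]
    by_cases hx : ∃ w, J (u w) x ≠ 0
    · obtain ⟨w, hw⟩ := hx
      rw [Finset.sum_eq_single w]
      · rw [abs_mul, abs_neg, hθ1, one_mul]
        have := abs_le_norm J (u w) x
        rwa [hu1] at this
      · intro b _ hb
        rw [(hu3 w x hw).2 b hb, mul_zero]
      · intro h3
        exact absurd (Finset.mem_univ w) h3
    · push Not at hx
      rw [Finset.sum_eq_zero fun w _ => by rw [hx w, mul_zero]]
      simp
  · intro g hg
    have h0 : g (∑ w : W, (-θ w) • u w) = 0 := by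
      rw [map_sum]
      refine Finset.sum_eq_zero fun w _ => ?_
      have h1 := hu2 w (Gf.equivFin ⟨g, hg⟩)
      simp only [Equiv.symm_apply_apply] at h1
      rw [map_smul, h1, smul_zero]
    rw [h0, abs_zero]
    exact hε'.le
  · intro w hw
    set w' : W := ⟨w, hw⟩ with hw'
    have hne : J (u w') (s w') ≠ 0 := by
      intro h0
      have := hs w'
      rw [h0] at this
      norm_num at this
    refine ⟨ev J (σ w') (s w'), hmem w' _ (hu3 w' _ hne).1, ?_⟩
    rw [ev_apply]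
    have e0 : J (∑ w : W, (-θ w) • u w) (s w') = ∑ w : W, (-θ w) * J (u w) (s w') := by
      simp only [map_sum, map_smul]
      rw [BoundedContinuousFunction.coe_sum]
      simp
    rw [e0, Finset.sum_eq_single w']
    · have h1 := hθ2 w'
      rw [abs_mul, hσ, one_mul] at h1
      have h2 : σ w' * (-θ w' * J (u w') (s w')) = -(θ w' * (σ w' * J (u w') (s w'))) := by ring
      rw [h2, h1]
      have := hs w'
      linarith
    · intro b _ hb
      rw [(hu3 w' _ hne).2 b hb, mul_zero]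
    · intro h3
      exact absurd (Finset.mem_univ w') h3

theorem dense_regular [T2Space S] [Nonempty S] {J : E →ₗᵢ[ℝ] (S →ᵇ ℝ)} (hJ : Regular J) :
    Dense {v : E | NLO v ∨ SR v} := by
  rw [Metric.dense_iff]
  intro f ε hε
  by_cases h : ∃ t₀ : S, IsOpen ({t₀} : Set S) ∧ ‖f‖ - ε / 4 < |J f t₀|
  · obtain ⟨t₀, h1, h2⟩ := h
    obtain ⟨v, hv1, hv2⟩ := near_nlo hJ f hε h1 h2
    exact ⟨v, hv1, Or.inl hv2⟩
  · push Not at h
    exact ⟨f, mem_ball_self hε, Or.inr (sr_of_no_isolated hJ f (by positivity) h)⟩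

end Pool.Agent.TH326.SF
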