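import Pool.Agent.TH326.SF.Msum
import Pool.Agent.TH326.SF.Fun2

/-!
# Classes of good spaces
-/

set_option autoImplicit false
set_option linter.all false

open Set Metric Topology Filter
open scoped BoundedContinuousFunction ENNReal ZeroAtInfty

namespace Pool.Agent.TH326.SF

open Pool.Agent.H621R3.SG (NLO)

section basic

variable {E : Type*} [NormedAddCommGroup E] [NormedSpace ℝ E]

theorem good_of_subsingleton [Subsingleton E] : Good E := by
  have : {v : E | NLO v ∨ SR v} = univ := by
    apply eq_univ_of_forall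
    intro v
    refine Or.inl ⟨1, one_pos, 1, one_pos, fun u hu => ?_⟩
    rw [Subsingleton.elim u 0, norm_zero] at hu
    norm_num at hu
  unfold Good
  rw [this]
  exact dense_univ

theorem good_of_dense_diff (h : Dense {v : E | DifferentiableAt ℝ (fun y : E => ‖y‖) v}) :
    Good E :=
  h.mono fun v hv => Or.inl (Pool.Agent.H130R9.nlo_of_diff hv)

theorem good_of_finiteDimensional [FiniteDimensional ℝ E] : Good E := by
  apply good_of_dense_diff
  borelize E
  let μ : MeasureTheory.Measure E := MeasureTheory.Measure.addHaar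
  have h := (lipschitzWith_one_norm (E := E)).ae_differentiableAt (μ := μ)
  exact MeasureTheory.Measure.dense_of_ae h

theorem good_of_lur
    (h : ∀ x : E, ‖x‖ = 1 → ∀ y : ℕ → E, (∀ n, ‖y n‖ = 1) →
      Tendsto (fun n => ‖x + y n‖) atTop (𝓝 2) → Tendsto y atTop (𝓝 x)) : Good E := by
  rcases subsingleton_or_nontrivial E with hs | hn
  · exact good_of_subsingleton
  · exact (dense_compl_singleton (0 : E)).mono fun v hv =>
      Or.inl (Pool.Agent.H130R9.nlo_of_lur h hv)

theorem good_of_octahedral
    (h : ∀ F : Finset E, (∀ x ∈ F, ‖x‖ = 1) → ∀ ε > (0:ℝ), ∃ y : E, ‖y‖ = 1 ∧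
      ∀ x ∈ F, 2 - ε ≤ ‖x + y‖) : Good E := by
  have : {v : E | NLO v ∨ SR v} = univ :=
    eq_univ_of_forall fun v => Or.inr (sr_of_slow (Pool.Agent.H130R9.slow_of_octahedral h) v)
  unfold Good
  rw [this]
  exact dense_univ

end basic

section sums

variable {E F : Type*} [NormedAddCommGroup E] [NormedSpace ℝ E] [NormedAddCommGroup F]
  [NormedSpace ℝ F]

/-- the embedding of the first factor -/
noncomputable def inlI (E F : Type*) [NormedAddCommGroup E] [NormedSpace ℝ E]
    [NormedAddCommGroup F] [NormedSpace ℝ F] : E →ₗᵢ[ℝ] E × F where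
  toLinearMap := LinearMap.inl ℝ E F
  norm_map' := fun x => by simp [Prod.norm_def]

/-- the embedding of the second factor -/
noncomputable def inrI (E F : Type*) [NormedAddCommGroup E] [NormedSpace ℝ E]
    [NormedAddCommGroup F] [NormedSpace ℝ F] : F →ₗᵢ[ℝ] E × F where
  toLinearMap := LinearMap.inr ℝ E F
  norm_map' := fun x => by simp [Prod.norm_def]

theorem good_prod (hE : Good E) (hF : Good F) : Good (E × F) := by
  rcases subsingleton_or_nontrivial (E × F) with hs | hn
  · exact good_of_subsingleton
  · have h1 : MSummand (inlI E F) (ContinuousLinearMap.fst ℝ E F) := by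
      refine ⟨fun e => rfl, fun x => ?_⟩
      have : x - inlI E F ((ContinuousLinearMap.fst ℝ E F) x) = (0, x.2) := by
        apply Prod.ext
        · change x.1 - x.1 = 0
          exact sub_self _
        · change x.2 - 0 = x.2
          exact sub_zero _
      rw [this, Prod.norm_def, Prod.norm_def]
      simp
    have h2 : MSummand (inrI E F) (ContinuousLinearMap.snd ℝ E F) := by
      refine ⟨fun e => rfl, fun x => ?_⟩
      have : x - inrI E F ((ContinuousLinearMap.snd ℝ E F) x) = (x.1, 0) := by
        apply Prod.ext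
        · change x.1 - 0 = x.1
          exact sub_zero _
        · change x.2 - x.2 = 0
          exact sub_self _
      rw [this, Prod.norm_def, Prod.norm_def]
      simp [max_comm]
    apply good_of_near
    intro f ε hε hεf
    rcases le_total ‖f.2‖ ‖f.1‖ with h | h
    · refine h1.near hE hε hεf ?_
      have : ‖f‖ = ‖f.1‖ := by rw [Prod.norm_def, max_eq_left h]
      rw [this]
      change ‖f.1‖ - ε / 8 < ‖f.1‖
      linarith
    · refine h2.near hF hε hεf ?_
      have : ‖f‖ = ‖f.2‖ := by rw [Prod.norm_def, max_eq_right h]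
      rw [this]
      change ‖f.2‖ - ε / 8 < ‖f.2‖
      linarith

variable {I : Type*} [DecidableEq I] {T : I → Type*} [∀ k, NormedAddCommGroup (T k)]
  [∀ k, NormedSpace ℝ (T k)]

/-- the embedding of a coordinate space in a subspace of the `ℓ∞`-sum -/
noncomputable def singI (X : Submodule ℝ (lp T ∞)) (hX : ∀ k e, lp.single ∞ k e ∈ X) (k : I) :
    T k →ₗᵢ[ℝ] X where
  toLinearMap := (lp.lsingle (𝕜 := ℝ) (E := T) ∞ k).codRestrict X (fun e => hX k e)
  norm_map' := fun e => by
    change ‖(lp.single ∞ k e : lp T ∞)‖ = ‖e‖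
    apply le_antisymm
    · apply lp.norm_le_of_forall_le (norm_nonneg _)
      intro j
      by_cases hj : j = k
      · subst hj
        rw [lp.single_apply_self]
      · rw [lp.single_apply_ne _ _ _ hj, norm_zero]
        exact norm_nonneg _
    · have := lp.norm_apply_le_norm ENNReal.top_ne_zero (lp.single ∞ k e : lp T ∞) k
      rwa [lp.single_apply_self] at this

/-- the coordinate projection -/
noncomputable def evalX (X : Submodule ℝ (lp T ∞)) (k : I) : X →L[ℝ] T k :=
  (lp.evalCLM ℝ T ∞ k).comp X.subtypeL

lemma msummand_sing (X : Submodule ℝ (lp T ∞)) (hX : ∀ k e, lp.single ∞ k e ∈ X) (k : I) :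
    MSummand (singI X hX k) (evalX X k) := by
  refine ⟨fun e => ?_, fun x => ?_⟩
  · change (lp.single ∞ k e : lp T ∞) k = e
    exact lp.single_apply_self _ _ _
  · have hx : ∀ j, ((x - singI X hX k (evalX X k x) : X) : lp T ∞) j =
        (x : lp T ∞) j - (lp.single ∞ k ((x : lp T ∞) k) : lp T ∞) j := fun j => rfl
    apply le_antisymm
    · change ‖(x : lp T ∞)‖ ≤ _
      apply lp.norm_le_of_forall_le (le_max_of_le_left (norm_nonneg _))
      intro j
      by_cases hj : j = k
      · subst hj
        exact le_max_left _ _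
      · refine le_max_of_le_right ?_
        have h1 := lp.norm_apply_le_norm ENNReal.top_ne_zero
          ((x - singI X hX k (evalX X k x) : X) : lp T ∞) j
        rw [hx, lp.single_apply_ne _ _ _ hj, sub_zero] at h1
        exact h1
    · apply max_le
      · exact lp.norm_apply_le_norm ENNReal.top_ne_zero (x : lp T ∞) k
      · change ‖((x - singI X hX k (evalX X k x) : X) : lp T ∞)‖ ≤ ‖(x : lp T ∞)‖
        apply lp.norm_le_of_forall_le (norm_nonneg _)
        intro j
        rw [hx]
        by_cases hj : j = k
        · subst hj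
          rw [lp.single_apply_self, sub_self, norm_zero]
          exact norm_nonneg _
        · rw [lp.single_apply_ne _ _ _ hj, sub_zero]
          exact lp.norm_apply_le_norm ENNReal.top_ne_zero (x : lp T ∞) j

theorem good_lp (X : Submodule ℝ (lp T ∞)) (hX : ∀ k e, lp.single ∞ k e ∈ X)
    (hT : ∀ k, Good (T k)) : Good X := by
  rcases subsingleton_or_nontrivial X with hs | hn
  · exact good_of_subsingleton
  · refine good_of_msummands (fun k => singI X hX k) (fun k => evalX X k)
      (fun k => msummand_sing X hX k) hT ?_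
    intro x hx ε hε
    by_contra hno
    push Not at hno
    have hx0 : 0 < ‖x‖ := norm_pos_iff.2 hx
    have hno' : ∀ k, ‖(x : lp T ∞) k‖ ≤ ‖x‖ - ε := hno
    have hI : Nonempty I := by
      by_contra hI
      rw [not_nonempty_iff] at hI
      have : (x : lp T ∞) = 0 := lp.ext (funext fun k => (hI.false k).elim)
      exact hx (Subtype.ext this)
    have h1 : ‖(x : lp T ∞)‖ ≤ ‖x‖ - ε := lp.norm_le_of_forall_le' _ hno'
    have h2 : ‖(x : lp T ∞)‖ = ‖x‖ := rfl
    linarith

end sums

section functions

variable {K : Type*} [TopologicalSpace K]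

theorem regular_compact [CompactSpace K] [T2Space K] :
    Regular ((ContinuousMap.linearIsometryBoundedOfCompact K ℝ ℝ).toLinearIsometry) := by
  intro G hG hGne
  obtain ⟨x, hx⟩ := hGne
  obtain ⟨f, hf0, hf1, -⟩ := exists_continuous_zero_one_of_isClosed hG.isClosed_compl
    (isClosed_singleton (x := x)) (by
      rw [Set.disjoint_singleton_right]
      exact fun h => h hx)
  refine ⟨f, ?_, fun t ht => hf0 ht⟩
  intro h0
  have h1 : f x = 1 := hf1 (mem_singleton x)
  rw [h0] at h1
  norm_num at h1

/-- the isometric embedding of `C₀(L)` in `C_b(L)` -/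
noncomputable def c0I (K : Type*) [TopologicalSpace K] : C₀(K, ℝ) →ₗᵢ[ℝ] (K →ᵇ ℝ) where
  toFun := ZeroAtInftyContinuousMap.toBCF
  map_add' := fun _ _ => rfl
  map_smul' := fun _ _ => rfl
  norm_map' := fun _ => rfl

theorem regular_c0 [LocallyCompactSpace K] [T2Space K] : Regular (c0I K) := by
  intro G hG hGne
  obtain ⟨x, hx⟩ := hGne
  obtain ⟨f, hf1, hf0, hfc, -⟩ := exists_continuous_one_zero_of_isCompact
    (isCompact_singleton (x := x)) hG.isClosed_compl (by
      rw [Set.disjoint_singleton_left]
      exact fun h => h hx)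
  refine ⟨⟨f, hfc.is_zero_at_infty⟩, ?_, fun t ht => hf0 ht⟩
  intro h0
  have h1 : f x = 1 := hf1 (mem_singleton x)
  have h2 : (⟨f, hfc.is_zero_at_infty⟩ : C₀(K, ℝ)) x = 0 := by rw [h0]; rfl
  have h3 : f x = 0 := h2
  rw [h1] at h3
  norm_num at h3

/-- a space with a regular embedding over an infinite space is infinite-dimensional -/
theorem not_finiteDimensional_of_regular {E : Type*} [NormedAddCommGroup E] [NormedSpace ℝ E]
    [T2Space K] [Infinite K] {J : E →ₗᵢ[ℝ] (K →ᵇ ℝ)} (hJ : Regular J) :
    ¬ FiniteDimensional ℝ E := by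
  intro hfin
  obtain ⟨u, hu1, hu2, -⟩ := exists_bumps hJ (A := Unit) (G := fun _ => univ)
    (fun _ => infinite_univ) (fun _ => isOpen_univ)
    (g := fun j => LinearMap.toContinuousLinearMap ((Module.finBasis ℝ E).coord j))
  have h0 : u () = 0 := by
    apply (Module.finBasis ℝ E).repr.injective
    rw [map_zero]
    ext j
    exact hu2 () j
  have := hu1 ()
  rw [h0, norm_zero] at this
  norm_num at this

end functions

end Pool.Agent.TH326.SF
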