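import Pool.Agent.H621R3.SG

/-!
# Star-finite coverings by balls: a criterion with weak* slices
-/

set_option autoImplicit false
set_option linter.all false

open Set Metric Topology Filter
open Pool.Agent.H130R9

namespace Pool.Agent.TH326.SF

/-- weak* slice of the dual unit ball -/
def Slice {X : Type*} [NormedAddCommGroup X] [NormedSpace ℝ X] (c : X) (β : ℝ) :
    Set (StrongDual ℝ X) := {f | ‖f‖ ≤ 1 ∧ β < f c}

/-- finitely many nonempty weak* slices close to the face of `v` are rough in a common direction -/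
def SR {X : Type*} [NormedAddCommGroup X] [NormedSpace ℝ X] (v : X) : Prop :=
  ∃ a > (0:ℝ), ∃ η > (0:ℝ), ∀ (W : Finset (X × ℝ)) (G : Finset (StrongDual ℝ X)),
    (∀ w ∈ W, (Slice w.1 w.2).Nonempty ∧ ∀ f ∈ Slice w.1 w.2, ‖v‖ - η < f v) →
    ∀ ε > (0:ℝ), ∃ u : X, ‖u‖ ≤ 1 ∧ (∀ g ∈ G, |g u| ≤ ε) ∧ ∀ w ∈ W, ∃ f ∈ Slice w.1 w.2, f u < -a

variable {X : Type*} [NormedAddCommGroup X] [NormedSpace ℝ X] {ι : Type*} {c : ι → X} {r : ι → ℝ}

theorem no_loc_sr_at (h : Cov c r) {i₀ : ι} {x₀ : X} {δ : ℝ}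
    (L : Loc c r i₀ x₀ δ) {w : X} (hw1 : SR w)
    (hw2 : dist (x₀ - c i₀) w < min (δ / 8) (r i₀ / 2)) : False := by
  classical
  obtain ⟨a, ha, η, hη, H⟩ := hw1
  have hδ := L.dpos
  have hR := h.pos i₀
  set b := c i₀ with hb
  set R := r i₀ with hRdef
  obtain ⟨hwpos, hw'R, hw'v⟩ := Pool.Agent.H621R3.SG.proj_near (v₀ := x₀ - b) (w := w) (δ := δ) hR
    (by rw [← dist_eq_norm]; exact L.dist_eq) (by rw [← dist_eq_norm, dist_comm]; exact hw2)
  set x := b + (R / ‖w‖) • w with hx
  have hxx₀ : dist x x₀ < δ / 4 := by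
    rw [dist_eq_norm]
    have : x - x₀ = (R / ‖w‖) • w - (x₀ - b) := by rw [hx]; abel
    rw [this]
    exact hw'v
  have hxb : dist x b = R := by rw [dist_eq_norm, hx, add_sub_cancel_left, hw'R]
  set d₀ := min (δ / 8) (min (η * (R / ‖w‖)) (a * (δ / 8))) with hd₀
  have hd₀pos : 0 < d₀ := by positivity
  have hd₀1 : d₀ ≤ δ / 8 := min_le_left _ _
  have hd₀2 : d₀ ≤ η * (R / ‖w‖) := (min_le_right _ _).trans (min_le_left _ _)
  have hd₀3 : d₀ ≤ a * (δ / 8) := (min_le_right _ _).trans (min_le_right _ _)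
  obtain ⟨z, hz1, hz2⟩ := mem_closure_iff_nhds.1 (mem_closure_compl_closedBall hR hxb)
    (ball x d₀) (ball_mem_nhds x hd₀pos)
  have hzx : dist z x < d₀ := hz1
  have hzx₀ : dist z x₀ < 3 * δ / 8 := by
    have := dist_triangle z x x₀
    linarith
  set J : Set ι := {k | z ∈ closedBall (c k) (r k)} with hJ
  have hJfin : J.Finite := h.pf z
  set G : Set X := ⋃ j ∈ J, closedBall (c j) (r j) with hG
  have hGcl : IsClosed G := hJfin.isClosed_biUnion fun j _ => isClosed_closedBall
  set I : Set ι := ⋃ j ∈ J, {k | (closedBall (c j) (r j) ∩ closedBall (c k) (r k)).Nonempty} with hI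
  have hIfin : I.Finite := hJfin.biUnion fun j _ => h.star j
  have hzball : z ∈ ball x₀ δ := by rw [mem_ball]; linarith
  -- separating functionals
  have hsep : ∀ i : ι, ∃ (f : StrongDual ℝ X) (e : ℝ), 0 < e ∧ (i ∉ J →
      ∀ y ∈ closedBall (c i) (r i), f y < f z - e) := by
    intro i
    by_cases hi : i ∈ J
    · exact ⟨0, 1, one_pos, fun h' => absurd hi h'⟩
    · obtain ⟨f, u, h1, h2⟩ := geometric_hahn_banach_closed_point
        (convex_closedBall (c i) (r i)) isClosed_closedBall (show z ∉ closedBall (c i) (r i) from hi)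
      exact ⟨f, f z - u, by linarith, fun _ y hy => by linarith [h1 y hy]⟩
  choose g eg heg hg using hsep
  obtain ⟨e, he0, hee⟩ : ∃ e > (0:ℝ), ∀ i ∈ I, e * (δ / 8) ≤ eg i := by
    have hev : ∀ᶠ e in 𝓝[>] (0:ℝ), ∀ i ∈ I, e < eg i / (δ / 8) := by
      rw [eventually_all_finite hIfin]
      intro i hi
      filter_upwards [Ioo_mem_nhdsGT (div_pos (heg i) (by positivity : 0 < δ / 8))] with e he
      exact he.2
    obtain ⟨e, he1, he2⟩ := (hev.and (Ioo_mem_nhdsGT one_pos)).exists
    exact ⟨e, he2.1, fun i hi => by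
      have := he1 i hi
      rw [lt_div_iff₀ (by positivity)] at this
      exact this.le⟩
  have hdist : ∀ k ∈ J, R + r k < ‖c k - b‖ := by
    intro k hk
    obtain ⟨-, hdisj⟩ := L.P2 k z hzball hz2 hk
    rw [disjoint_closedBall_closedBall_iff hR.le (h.pos k).le] at hdisj
    rw [← dist_eq_norm, dist_comm]
    exact hdisj
  have hzb : ‖z - b‖ ≤ R + dist z x := by
    rw [← dist_eq_norm]
    have := dist_triangle z x b
    linarith
  have hzk : ∀ k ∈ J, ‖c k - z‖ ≤ r k := by
    intro k hk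
    have : dist z (c k) ≤ r k := hk
    rwa [dist_comm, dist_eq_norm] at this
  obtain ⟨u, hu1, hu2, hu3⟩ := H (hJfin.toFinset.image fun k => (c k - b, R + r k))
    (hIfin.toFinset.image g) (by
      intro q hq
      obtain ⟨k, hk, rfl⟩ := Finset.mem_image.1 hq
      have hkJ : k ∈ J := hJfin.mem_toFinset.1 hk
      refine ⟨?_, ?_⟩
      · obtain ⟨f, hf1, hf2⟩ := exists_dual_vector'' ℝ (c k - b)
        exact ⟨f, hf1, by rw [hf2]; exact hdist k hkJ⟩
      · rintro f ⟨hf1, hf2⟩
        simp only at hf2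
        have e1 : f (c k - z) ≤ r k := by
          have := f.le_of_opNorm_le hf1 (c k - z)
          rw [one_mul] at this
          exact (le_abs_self _).trans (this.trans (hzk k hkJ))
        have e2 : f (z - x) ≤ dist z x := by
          have := f.le_of_opNorm_le hf1 (z - x)
          rw [one_mul, ← dist_eq_norm] at this
          exact (le_abs_self _).trans this
        have e3 : f (c k - b) = f (c k - z) + f (z - x) + (R / ‖w‖) * f w := by
          have : c k - b = (c k - z) + (z - x) + (R / ‖w‖) • w := by rw [hx]; abel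
          rw [this, map_add, map_add, map_smul, smul_eq_mul]
        have e4 : R - d₀ < (R / ‖w‖) * f w := by linarith
        have e5 : (R / ‖w‖) * (‖w‖ - η) ≤ R - d₀ := by
          have : (R / ‖w‖) * ‖w‖ = R := by field_simp
          rw [mul_sub, this]
          linarith
        exact lt_of_mul_lt_mul_left (e5.trans_lt e4) (by positivity)) e he0
  have hzG : z ∈ G := by
    obtain ⟨k, hk⟩ := h.cov z
    exact mem_biUnion (show k ∈ J from hk) hk
  have hout : z + (δ / 8) • u ∉ G := by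
    intro hG'
    obtain ⟨k, hk, hk'⟩ := mem_iUnion₂.1 hG'
    obtain ⟨f, ⟨hf1, hf2⟩, hf3⟩ := hu3 (c k - b, R + r k)
      (Finset.mem_image.2 ⟨k, hJfin.mem_toFinset.2 hk, rfl⟩)
    simp only at hf2
    have e1 : f (c k - (z + (δ / 8) • u)) ≤ r k := by
      have := f.le_of_opNorm_le hf1 (c k - (z + (δ / 8) • u))
      rw [one_mul, ← dist_eq_norm, dist_comm] at this
      exact (le_abs_self _).trans (this.trans hk')
    have e2 : f (z - b) ≤ ‖z - b‖ := by
      have := f.le_of_opNorm_le hf1 (z - b)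
      rw [one_mul] at this
      exact (le_abs_self _).trans this
    have e3 : f (c k - (z + (δ / 8) • u)) = f (c k - b) - f (z - b) - (δ / 8) * f u := by
      have : c k - (z + (δ / 8) • u) = (c k - b) - (z - b) - (δ / 8) • u := by abel
      rw [this, map_sub, map_sub, map_smul, smul_eq_mul]
    have e4 : a * (δ / 8) < -((δ / 8) * f u) := by nlinarith
    linarith
  apply hout
  apply seg_stay hGcl hzG
  intro y hy hyG hycl
  obtain ⟨s, hs, rfl⟩ := (segment_eq_image' ℝ z (z + (δ / 8) • u)) ▸ hy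
  have hy' : z + s • (z + (δ / 8) • u - z) = z + (s * (δ / 8)) • u := by module
  simp only [hy'] at hyG hycl
  set t := s * (δ / 8) with ht
  have ht0 : 0 ≤ t := mul_nonneg hs.1 (by positivity)
  have htT : t ≤ δ / 8 := by
    have := hs.2
    rw [ht]
    nlinarith
  obtain ⟨k, hk, hk'⟩ := mem_iUnion₂.1 hyG
  obtain ⟨-, hdisj⟩ := L.P2 k z hzball hz2 hk
  have hyball : z + t • u ∈ ball x₀ δ := by
    rw [mem_ball]
    have h1 : dist (z + t • u) z ≤ t := by
      rw [dist_eq_norm, add_sub_cancel_left, norm_smul, Real.norm_of_nonneg ht0]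
      nlinarith [norm_nonneg u]
    have h2 := dist_triangle (z + t • u) z x₀
    linarith
  have hNL : ¬ NL c r (z + t • u) := fun hNL =>
    Set.disjoint_left.1 hdisj (L.P3 _ hyball hNL) hk'
  obtain ⟨i, hiJ, hi⟩ := mem_other h hNL J hycl
  have hiI : i ∈ I := mem_biUnion hk ⟨_, hk', hi⟩
  have h1 := hg i hiJ _ hi
  have h2 := hu2 (g i) (Finset.mem_image.2 ⟨i, hIfin.mem_toFinset.2 hiI, rfl⟩)
  rw [map_add, map_smul, smul_eq_mul] at h1
  have h3 := (abs_le.1 h2).1
  have h4 := hee i hiI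
  have h5 : t * e ≤ e * (δ / 8) := by nlinarith
  nlinarith

theorem no_cover_sr [CompleteSpace X] [TopologicalSpace.SeparableSpace X]
    (hX : ¬ FiniteDimensional ℝ X) (H : Dense {v : X | Pool.Agent.H621R3.SG.NLO v ∨ SR v})
    {ι : Type*} {c : ι → X} {r : ι → ℝ} (hpos : ∀ i, 0 < r i)
    (hcov : (⋃ i, closedBall (c i) (r i)) = univ)
    (hstar : ∀ i, {j | (closedBall (c i) (r i) ∩ closedBall (c j) (r j)).Nonempty}.Finite) :
    False := by
  obtain ⟨S, h⟩ := exists_cov hpos hcov hstar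
  obtain ⟨i₀, x₀, δ, L⟩ := exists_loc hX h
  have hδ := L.dpos
  have hR := h.pos i₀
  obtain ⟨w, hw1, hw2⟩ := H.exists_dist_lt (x₀ - (fun i : S => c i) i₀)
    (show 0 < min (δ / 8) ((fun i : S => r i) i₀ / 2) by positivity)
  rcases hw1 with hw1 | hw1
  · exact Pool.Agent.H621R3.SG.no_loc_nlo_at hX h L hw1 hw2
  · exact no_loc_sr_at h L hw1 hw2

end Pool.Agent.TH326.SF
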