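import Pool.Agent.TH326.SF.Esc

/-!
# Function spaces: disjoint bumps
-/

set_option autoImplicit false
set_option linter.all false

open Set Metric Topology Filter
open scoped BoundedContinuousFunction

namespace Pool.Agent.TH326.SF

/-- a linear isometric copy of `E` in `C_b(S)` containing, for every nonempty open set, a nonzero
function that vanishes outside of it -/
def Regular {E S : Type*} [NormedAddCommGroup E] [NormedSpace ℝ E] [TopologicalSpace S]
    (J : E →ₗᵢ[ℝ] (S →ᵇ ℝ)) : Prop :=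
  ∀ G : Set S, IsOpen G → G.Nonempty → ∃ e : E, e ≠ 0 ∧ ∀ t, t ∉ G → J e t = 0

lemma exists_inj {B S : Type*} [Finite B] {G : B → Set S} (hG : ∀ b, (G b).Infinite) :
    ∃ p : B → S, Function.Injective p ∧ ∀ b, p b ∈ G b := by
  classical
  have := Fintype.ofFinite B
  choose t ht1 ht2 using fun b => (hG b).exists_subset_card_eq (Fintype.card B)
  obtain ⟨f, hf1, hf2⟩ := (Finset.all_card_le_biUnion_card_iff_exists_injective t).1 (by
    intro s
    rcases s.eq_empty_or_nonempty with rfl | ⟨b, hb⟩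
    · simp
    · calc s.card ≤ Fintype.card B := Finset.card_le_univ s
        _ = (t b).card := (ht2 b).symm
        _ ≤ _ := Finset.card_le_card (Finset.subset_biUnion_of_mem t hb))
  exact ⟨f, hf1, fun b => ht1 b (hf2 b)⟩

lemma exists_sep {B S : Type*} [TopologicalSpace S] [T2Space S] [Finite B] {G : B → Set S}
    (hG : ∀ b, (G b).Infinite) (hGo : ∀ b, IsOpen (G b)) :
    ∃ V : B → Set S, (∀ b, IsOpen (V b) ∧ (V b).Nonempty ∧ V b ⊆ G b) ∧
      Pairwise (fun a b => Disjoint (V a) (V b)) := by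
  obtain ⟨p, hp, hpG⟩ := exists_inj hG
  obtain ⟨U, hU1, hU2⟩ := (Set.finite_range p).t2_separation
  refine ⟨fun b => U (p b) ∩ G b, fun b => ⟨(hU1 _).2.inter (hGo b), ⟨p b, (hU1 _).1, hpG b⟩,
    inter_subset_right⟩, ?_⟩
  intro a b hab
  exact (hU2 (mem_range_self a) (mem_range_self b) (fun h => hab (hp h))).mono inter_subset_left
    inter_subset_left

variable {E S : Type*} [NormedAddCommGroup E] [NormedSpace ℝ E] [TopologicalSpace S]

/-- in infinite open sets `G a` there are disjointly supported normalised elements killed by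
finitely many functionals -/
lemma exists_bumps [T2Space S] {J : E →ₗᵢ[ℝ] (S →ᵇ ℝ)} (hJ : Regular J) {A : Type*} [Finite A]
    {G : A → Set S} (hG : ∀ a, (G a).Infinite) (hGo : ∀ a, IsOpen (G a))
    {m : ℕ} (g : Fin m → StrongDual ℝ E) :
    ∃ u : A → E, (∀ a, ‖u a‖ = 1) ∧ (∀ a j, g j (u a) = 0) ∧
      (∀ a t, J (u a) t ≠ 0 → t ∈ G a ∧ ∀ b, b ≠ a → J (u b) t = 0) := by
  classical
  obtain ⟨V, hV1, hV2⟩ := exists_sep (B := A × Fin (m + 1)) (G := fun b => G b.1)
    (fun b => hG b.1) (fun b => hGo b.1)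
  choose h hh0 hh using fun b => hJ (V b) (hV1 b).1 (hV1 b).2.1
  have key : ∀ a : A, ∃ α : Fin (m + 1) → ℝ, α ≠ 0 ∧ ∀ j, g j (∑ i, α i • h (a, i)) = 0 := by
    intro a
    let Φ : (Fin (m + 1) → ℝ) →ₗ[ℝ] (Fin m → ℝ) :=
      LinearMap.pi fun j => (g j : E →ₗ[ℝ] ℝ) ∘ₗ
        (∑ i, (LinearMap.proj i : (Fin (m + 1) → ℝ) →ₗ[ℝ] ℝ).smulRight (h (a, i)))
    have hker : LinearMap.ker Φ ≠ ⊥ := LinearMap.ker_ne_bot_of_finrank_lt (by simp)
    obtain ⟨α, hα1, hα2⟩ := (Submodule.ne_bot_iff _).1 hker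
    refine ⟨α, hα2, fun j => ?_⟩
    have := congrFun (LinearMap.mem_ker.1 hα1) j
    simpa [Φ] using this
  choose α hα1 hα2 using key
  set w : A → E := fun a => ∑ i, α a i • h (a, i) with hw
  have hval : ∀ a t, J (w a) t = ∑ i, α a i * J (h (a, i)) t := by
    intro a t
    rw [hw]
    simp only [map_sum, map_smul]
    rw [BoundedContinuousFunction.coe_sum]
    simp
  have hsupp : ∀ a t, J (w a) t ≠ 0 → ∃ i, t ∈ V (a, i) := by
    intro a t ht
    by_contra hno
    push Not at hno
    apply ht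
    rw [hval]
    exact Finset.sum_eq_zero fun i _ => by rw [hh (a, i) t (hno i), mul_zero]
  have hw0 : ∀ a, w a ≠ 0 := by
    intro a ha
    obtain ⟨i, hi⟩ : ∃ i, α a i ≠ 0 := by
      by_contra hno
      push Not at hno
      exact hα1 a (funext hno)
    have h1 : J (h (a, i)) ≠ 0 := fun h2 => hh0 (a, i) (J.injective (by rw [h2, map_zero]))
    obtain ⟨t, ht⟩ : ∃ t, J (h (a, i)) t ≠ 0 := by
      by_contra hno
      push Not at hno
      exact h1 (BoundedContinuousFunction.ext hno)
    have htV : t ∈ V (a, i) := by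
      by_contra hno
      exact ht (hh (a, i) t hno)
    have h2 := hval a t
    rw [ha, map_zero, Finset.sum_eq_single i] at h2
    · have : α a i * J (h (a, i)) t ≠ 0 := mul_ne_zero hi ht
      exact this h2.symm
    · intro j _ hji
      have : t ∉ V (a, j) := fun h3 =>
        (Set.disjoint_left.1 (hV2 (i := (a, j)) (j := (a, i)) (by simpa using hji)) h3) htV
      rw [hh (a, j) t this, mul_zero]
    · intro h3
      exact absurd (Finset.mem_univ i) h3
  refine ⟨fun a => ‖w a‖⁻¹ • w a, ?_, ?_, ?_⟩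
  · intro a
    rw [norm_smul, norm_inv, norm_norm, inv_mul_cancel₀ (norm_ne_zero_iff.2 (hw0 a))]
  · intro a j
    rw [map_smul, hα2, smul_zero]
  · intro a t ht
    have ht' : J (w a) t ≠ 0 := by
      intro h0
      apply ht
      simp [h0]
    obtain ⟨i, hi⟩ := hsupp a t ht'
    refine ⟨(hV1 (a, i)).2.2 hi, fun b hb => ?_⟩
    have : J (w b) t = 0 := by
      by_contra hne
      obtain ⟨j, hj⟩ := hsupp b t hne
      exact (Set.disjoint_left.1 (hV2 (i := (b, j)) (j := (a, i)) (by
        intro h3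
        exact hb (congrArg Prod.fst h3))) hj) hi
    simp [this]

end Pool.Agent.TH326.SF
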