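import Pool.Agent.TH326.SF.Pre2

/-!
# `L₁`-preduals
-/

set_option autoImplicit false
set_option linter.all false

open Set Metric Topology Filter MeasureTheory

namespace Pool.Agent.TH326.SF

lemma L1_line {Ω : Type*} [MeasurableSpace Ω] {μ : Measure Ω} (f : Lp ℝ 1 μ) (hf : ‖f‖ = 1)
    (hM : ∀ h : Lp ℝ 1 μ, ‖f + h‖ ≤ 1 → ‖f - h‖ ≤ 1 → h = 0) :
    ∃ P : Lp ℝ 1 μ →ₗ[ℝ] ℝ, P f = 1 ∧ ∀ g, ‖g‖ = |P g| + ‖g - P g • f‖ := by
  have hfi : Integrable f μ := L1.integrable_coeFn f
  have hfm : AEStronglyMeasurable f μ := hfi.aestronglyMeasurable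
  have hf1 : ∫ x, |f x| ∂μ = 1 := by
    rw [← hf, L1.norm_eq_integral_norm]
    rfl
  have hfa : Integrable (fun x => |f x|) μ := hfi.abs
  set s : Ω → ℝ := fun x => f x / |f x| with hs
  have hsm : AEStronglyMeasurable s μ := by
    have h1 : AEMeasurable f μ := hfm.aemeasurable
    have h2 : AEMeasurable (fun x => |f x|) μ := hfa.aestronglyMeasurable.aemeasurable
    exact (h1.div h2).aestronglyMeasurable
  have hsb : ∀ x, ‖s x‖ ≤ 1 := by
    intro x
    rw [hs]
    simp only [Real.norm_eq_abs, abs_div, abs_abs]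
    exact div_self_le_one _
  have hint : ∀ g : Lp ℝ 1 μ, Integrable (fun x => g x * s x) μ := fun g =>
    (L1.integrable_coeFn g).mul_bdd hsm (Eventually.of_forall hsb)
  let P : Lp ℝ 1 μ →ₗ[ℝ] ℝ :=
    { toFun := fun g => ∫ x, g x * s x ∂μ
      map_add' := fun g g' => by
        rw [← integral_add (hint g) (hint g')]
        refine integral_congr_ae ?_
        filter_upwards [Lp.coeFn_add g g'] with x hx
        rw [hx, Pi.add_apply, add_mul]
      map_smul' := fun c g => by
        rw [RingHom.id_apply, smul_eq_mul, ← integral_const_mul]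
        refine integral_congr_ae ?_
        filter_upwards [Lp.coeFn_smul c g] with x hx
        rw [hx, Pi.smul_apply, smul_eq_mul, mul_assoc] }
  have hPa : ∀ g, P g = ∫ x, g x * s x ∂μ := fun g => rfl
  -- on the support of `f` every `g` is a multiple of `f`
  have hclaim : ∀ g : Lp ℝ 1 μ, ∃ c : ℝ, ∀ᵐ x ∂μ, f x ≠ 0 → g x = c * f x := by
    intro g
    have hgm : AEStronglyMeasurable g μ := (L1.integrable_coeFn g).aestronglyMeasurable
    set φ : Ω → ℝ := fun x => Real.arctan (g x / f x) / Real.pi + 1 / 2 with hφ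
    have hφm : AEStronglyMeasurable φ μ := by
      have h1 : AEMeasurable (fun x => g x / f x) μ := hgm.aemeasurable.div hfm.aemeasurable
      have h2 : AEMeasurable (fun x => Real.arctan (g x / f x)) μ :=
        Real.measurable_arctan.comp_aemeasurable h1
      exact ((h2.div_const _).add_const _).aestronglyMeasurable
    have hpi := Real.pi_pos
    have hφ0 : ∀ x, 0 ≤ φ x := by
      intro x
      have h1 := Real.neg_pi_div_two_lt_arctan (g x / f x)
      have h2 : -(1 / 2) ≤ Real.arctan (g x / f x) / Real.pi := by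
        rw [le_div_iff₀ hpi]
        linarith
      change 0 ≤ Real.arctan (g x / f x) / Real.pi + 1 / 2
      linarith
    have hφ1 : ∀ x, φ x ≤ 1 := by
      intro x
      have h1 := Real.arctan_lt_pi_div_two (g x / f x)
      have h2 : Real.arctan (g x / f x) / Real.pi ≤ 1 / 2 := by
        rw [div_le_iff₀ hpi]
        linarith
      change Real.arctan (g x / f x) / Real.pi + 1 / 2 ≤ 1
      linarith
    have hφb : ∀ x, ‖φ x‖ ≤ 1 := fun x => by
      rw [Real.norm_eq_abs, abs_of_nonneg (hφ0 x)]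
      exact hφ1 x
    have hφf : Integrable (fun x => φ x * |f x|) μ :=
      hfa.bdd_mul hφm (Eventually.of_forall hφb)
    set l : ℝ := ∫ x, φ x * |f x| ∂μ with hl
    have hl0 : 0 ≤ l := integral_nonneg fun x => mul_nonneg (hφ0 x) (abs_nonneg _)
    have hl1 : l ≤ 1 := by
      rw [← hf1]
      exact integral_mono hφf hfa fun x => mul_le_of_le_one_left (abs_nonneg _) (hφ1 x)
    have hhi : Integrable (fun x => φ x * f x - l * f x) μ :=
      (hfi.bdd_mul hφm (Eventually.of_forall hφb)).sub (hfi.const_mul l)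
    set h : Lp ℝ 1 μ := hhi.toL1 _ with hh
    have hhx : h =ᵐ[μ] fun x => φ x * f x - l * f x := hhi.coeFn_toL1
    have h1 : ‖f + h‖ ≤ 1 := by
      rw [L1.norm_eq_integral_norm]
      have : ∫ x, ‖(f + h : Lp ℝ 1 μ) x‖ ∂μ = ∫ x, (1 - l) * |f x| + φ x * |f x| ∂μ := by
        refine integral_congr_ae ?_
        filter_upwards [Lp.coeFn_add f h, hhx] with x hx1 hx2
        rw [hx1, Pi.add_apply, hx2]
        have : f x + (φ x * f x - l * f x) = ((1 - l) + φ x) * f x := by ring
        rw [this, norm_mul, Real.norm_eq_abs, Real.norm_eq_abs,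
          abs_of_nonneg (by linarith [hφ0 x] : 0 ≤ 1 - l + φ x)]
        ring
      rw [this, integral_add (hfa.const_mul _) hφf, integral_const_mul, hf1, ← hl]
      linarith
    have h2 : ‖f - h‖ ≤ 1 := by
      rw [L1.norm_eq_integral_norm]
      have : ∫ x, ‖(f - h : Lp ℝ 1 μ) x‖ ∂μ = ∫ x, (1 + l) * |f x| - φ x * |f x| ∂μ := by
        refine integral_congr_ae ?_
        filter_upwards [Lp.coeFn_sub f h, hhx] with x hx1 hx2
        rw [hx1, Pi.sub_apply, hx2]
        have : f x - (φ x * f x - l * f x) = ((1 + l) - φ x) * f x := by ring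
        rw [this, norm_mul, Real.norm_eq_abs, Real.norm_eq_abs,
          abs_of_nonneg (by linarith [hφ1 x] : 0 ≤ 1 + l - φ x)]
        ring
      rw [this, integral_sub (hfa.const_mul _) hφf, integral_const_mul, hf1, ← hl]
      linarith
    have h3 := hM h h1 h2
    have h4 : (h : Ω → ℝ) =ᵐ[μ] 0 := by
      rw [h3]
      exact Lp.coeFn_zero ℝ 1 μ
    refine ⟨Real.tan (Real.pi * (l - 1 / 2)), ?_⟩
    filter_upwards [hhx, h4] with x hx1 hx2 hfx
    rw [hx2, Pi.zero_apply] at hx1
    have h5 : (φ x - l) * f x = 0 := by linarith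
    have h6 : φ x = l := by
      rcases mul_eq_zero.1 h5 with h' | h'
      · linarith
      · exact absurd h' hfx
    have h7 : Real.arctan (g x / f x) = Real.pi * (l - 1 / 2) := by
      have : Real.arctan (g x / f x) / Real.pi + 1 / 2 = l := h6
      rw [← this]
      field_simp
      ring
    have h8 : g x / f x = Real.tan (Real.pi * (l - 1 / 2)) := by
      rw [← h7, Real.tan_arctan]
    rw [← h8, div_mul_cancel₀ _ hfx]
  have hPc : ∀ (g : Lp ℝ 1 μ) (c : ℝ), (∀ᵐ x ∂μ, f x ≠ 0 → g x = c * f x) → P g = c := by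
    intro g c hc
    rw [hPa]
    have : ∫ x, g x * s x ∂μ = ∫ x, c * |f x| ∂μ := by
      refine integral_congr_ae ?_
      filter_upwards [hc] with x hx
      by_cases hfx : f x = 0
      · simp [hs, hfx]
      · rw [hx hfx, hs]
        simp only
        have h1 : |f x| ≠ 0 := abs_ne_zero.2 hfx
        field_simp
        rw [sq_abs]
    rw [this, integral_const_mul, hf1, mul_one]
  refine ⟨P, hPc f 1 (Eventually.of_forall fun x _ => (one_mul _).symm), fun g => ?_⟩
  obtain ⟨c, hc⟩ := hclaim g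
  rw [hPc g c hc]
  have h1 : |c| = ∫ x, |c| * |f x| ∂μ := by rw [integral_const_mul, hf1, mul_one]
  have h2 : ‖g - c • f‖ = ∫ x, |g x - c * f x| ∂μ := by
    rw [L1.norm_eq_integral_norm]
    refine integral_congr_ae ?_
    filter_upwards [Lp.coeFn_sub g (c • f), Lp.coeFn_smul c f] with x hx1 hx2
    rw [hx1, Pi.sub_apply, hx2, Pi.smul_apply, smul_eq_mul, Real.norm_eq_abs]
  have h3 : Integrable (fun x => |g x - c * f x|) μ :=
    ((L1.integrable_coeFn g).sub (hfi.const_mul c)).abs
  rw [h1, h2, ← integral_add (hfa.const_mul _) h3, L1.norm_eq_integral_norm]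
  refine integral_congr_ae ?_
  filter_upwards [hc] with x hx
  by_cases hfx : f x = 0
  · simp [hfx]
  · rw [hx hfx, sub_self, abs_zero, add_zero, norm_mul, Real.norm_eq_abs, Real.norm_eq_abs]

/-- the dual of `X` is isometric to an `L₁(μ)` -/
def L1Predual (X : Type*) [NormedAddCommGroup X] [NormedSpace ℝ X] : Prop :=
  ∃ (Ω : Type) (m : MeasurableSpace Ω) (μ : Measure Ω),
    Nonempty (StrongDual ℝ X ≃ₗᵢ[ℝ] Lp ℝ 1 μ)

variable {X : Type*} [NormedAddCommGroup X] [NormedSpace ℝ X]

theorem llines_of_L1 [Nontrivial X] {Ω : Type*} [MeasurableSpace Ω] {μ : Measure Ω}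
    (Φ : StrongDual ℝ X ≃ₗᵢ[ℝ] Lp ℝ 1 μ) : ∀ e ∈ Xt X, ∃ P, LLine e P := by
  intro e he
  have he1 : ‖e‖ = 1 := by
    have hle := ext_norm_le he
    by_contra hne
    have hlt : ‖e‖ < 1 := lt_of_le_of_ne hle hne
    obtain ⟨x, hx⟩ := exists_ne (0 : X)
    obtain ⟨g, hg1, hg2⟩ := exists_dual_vector ℝ x (norm_ne_zero_iff.2 hx)
    have h1 := ext_mid he (h := (1 - ‖e‖) • g) (by
      refine (norm_add_le _ _).trans ?_
      rw [norm_smul, hg1, mul_one, Real.norm_of_nonneg (by linarith)]
      linarith) (by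
      refine (norm_sub_le _ _).trans ?_
      rw [norm_smul, hg1, mul_one, Real.norm_of_nonneg (by linarith)]
      linarith)
    rcases smul_eq_zero.1 h1 with h' | h'
    · linarith
    · rw [h', norm_zero] at hg1
      norm_num at hg1
  obtain ⟨P, hP1, hP2⟩ := L1_line (Φ e) (by rw [Φ.norm_map, he1]) (fun h h1 h2 => by
    have := ext_mid he (h := Φ.symm h) (by
      rw [← Φ.norm_map, map_add, Φ.apply_symm_apply]
      exact h1) (by
      rw [← Φ.norm_map, map_sub, Φ.apply_symm_apply]
      exact h2)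
    have h3 := congrArg Φ this
    rwa [Φ.apply_symm_apply, map_zero] at h3)
  refine ⟨P.comp Φ.toLinearEquiv.toLinearMap, hP1, fun g => ?_⟩
  have h1 := hP2 (Φ g)
  rw [Φ.norm_map] at h1
  change ‖g‖ = |P (Φ g)| + ‖g - P (Φ g) • e‖
  rw [h1, ← map_smul, ← map_sub, Φ.norm_map]

theorem good_of_L1 {Ω : Type*} [MeasurableSpace Ω] {μ : Measure Ω}
    (Φ : StrongDual ℝ X ≃ₗᵢ[ℝ] Lp ℝ 1 μ) : Good X := by
  rcases subsingleton_or_nontrivial X with hs | hn
  · exact good_of_subsingleton
  · exact good_of_llines (llines_of_L1 Φ)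

end Pool.Agent.TH326.SF
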