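import Pool.Agent.TH326.SF.Abs4
import Pool.Agent.TH326.SF.Pre3

/-!
# Transport of `Good` along a linear isometry
-/

set_option autoImplicit false
set_option linter.all false

open Set Metric Topology Filter

namespace Pool.Agent.TH326.SF

theorem good_of_equiv {X Y : Type*} [NormedAddCommGroup X] [NormedSpace ℝ X]
    [NormedAddCommGroup Y] [NormedSpace ℝ Y] (Φ : X ≃ₗᵢ[ℝ] Y) (hX : Good X) : Good Y := by
  let i₂ : (⊥ : Submodule ℝ Y) →ₗᵢ[ℝ] Y := (⊥ : Submodule ℝ Y).subtypeₗᵢ
  have hb : ∀ y : (⊥ : Submodule ℝ Y), y = 0 := fun y => Subsingleton.elim _ _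
  have h : AbsSum (fun α β => α + β) Φ.toLinearIsometry
      (Φ.symm.toContinuousLinearEquiv : Y →L[ℝ] X) i₂ (0 : Y →L[ℝ] (⊥ : Submodule ℝ Y)) :=
    { p₁i₁ := fun e => Φ.symm_apply_apply e
      p₂i₂ := fun f => (hb f).symm
      p₁i₂ := fun f => by
        rw [hb f, map_zero, map_zero]
      p₂i₁ := fun e => rfl
      eq := fun x => by
        change Φ (Φ.symm x) + 0 = x
        rw [add_zero, Φ.apply_symm_apply]
      norm := fun x => by
        change ‖x‖ = ‖Φ.symm x‖ + ‖(0 : (⊥ : Submodule ℝ Y))‖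
        rw [norm_zero, add_zero, Φ.symm.norm_map]
      mono := fun α α' β β' _ _ h1 h2 => add_le_add h1 h2
      lt := fun A B hA hB => by linarith }
  exact h.good_add hX good_of_subsingleton

end Pool.Agent.TH326.SF
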