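import Pool.Agent.TH326.SF.Oct

/-!
# M-summands and the good points of the norm
-/

set_option autoImplicit false
set_option linter.all false

open Set Metric Topology Filter

namespace Pool.Agent.TH326.SF

open Pool.Agent.H621R3.SG (NLO)

/-- densely many points are not locally octahedral or simultaneously rough -/
def Good (X : Type*) [NormedAddCommGroup X] [NormedSpace ℝ X] : Prop :=
  Dense {v : X | NLO v ∨ SR v}

/-- `E` is an M-summand of `X` through the embedding `i` and the projection `p` -/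
def MSummand {E X : Type*} [NormedAddCommGroup E] [NormedSpace ℝ E] [NormedAddCommGroup X]
    [NormedSpace ℝ X] (i : E →ₗᵢ[ℝ] X) (p : X →L[ℝ] E) : Prop :=
  (∀ e, p (i e) = e) ∧ ∀ x, ‖x‖ = max ‖p x‖ ‖x - i (p x)‖

variable {E X : Type*} [NormedAddCommGroup E] [NormedSpace ℝ E] [NormedAddCommGroup X]
    [NormedSpace ℝ X] {i : E →ₗᵢ[ℝ] X} {p : X →L[ℝ] E}

lemma MSummand.norm_p_le (h : MSummand i p) (x : X) : ‖p x‖ ≤ ‖x‖ := by
  rw [h.2 x]; exact le_max_left _ _

lemma MSummand.norm_q_le (h : MSummand i p) (x : X) : ‖x - i (p x)‖ ≤ ‖x‖ := by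
  conv_rhs => rw [h.2 x]
  exact le_max_right _ _

lemma nlo_scale {w : E} {s η : ℝ} (hs : 0 < s) (hη : 0 < η)
    (hw : ∀ u : E, ‖u‖ = 1 → ‖w + s • u‖ + ‖w - s • u‖ ≤ 2 * ‖w‖ + 2 * s - η)
    {s' : ℝ} (hs' : 0 < s') (hs's : s' ≤ s) (e : E) (he : ‖e‖ ≤ 1) :
    ‖w + s' • e‖ + ‖w - s' • e‖ ≤ 2 * ‖w‖ + 2 * s' - min (2 * s') (s' * η / s) := by
  rcases eq_or_ne e 0 with rfl | he0
  · simp only [smul_zero, add_zero, sub_zero]
    have := min_le_left (2 * s') (s' * η / s)
    linarith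
  · have hn : 0 < ‖e‖ := norm_pos_iff.2 he0
    set u := ‖e‖⁻¹ • e with hu
    have hu1 : ‖u‖ = 1 := by rw [hu, norm_smul, norm_inv, norm_norm, inv_mul_cancel₀ hn.ne']
    have heu : e = ‖e‖ • u := by rw [hu, smul_smul, mul_inv_cancel₀ hn.ne', one_smul]
    set μ := s' * ‖e‖ / s with hμ
    have hμ0 : 0 ≤ μ := by positivity
    have hμ1 : μ ≤ 1 := by
      rw [hμ, div_le_one hs]
      nlinarith
    have hμs : μ * s = s' * ‖e‖ := by rw [hμ]; field_simp
    have e1 : w + s' • e = (1 - μ) • w + μ • (w + s • u) := by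
      rw [heu, smul_smul, ← hμs]
      module
    have e2 : w - s' • e = (1 - μ) • w + μ • (w - s • u) := by
      rw [heu, smul_smul, ← hμs]
      module
    have h1 : ‖w + s' • e‖ ≤ (1 - μ) * ‖w‖ + μ * ‖w + s • u‖ := by
      rw [e1]
      refine (norm_add_le _ _).trans ?_
      rw [norm_smul, norm_smul, Real.norm_of_nonneg hμ0, Real.norm_of_nonneg (by linarith)]
    have h2 : ‖w - s' • e‖ ≤ (1 - μ) * ‖w‖ + μ * ‖w - s • u‖ := by
      rw [e2]
      refine (norm_add_le _ _).trans ?_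
      rw [norm_smul, norm_smul, Real.norm_of_nonneg hμ0, Real.norm_of_nonneg (by linarith)]
    have h3 := mul_le_mul_of_nonneg_left (hw u hu1) hμ0
    have h4 : ‖w + s' • e‖ + ‖w - s' • e‖ ≤ 2 * ‖w‖ + μ * (2 * s - η) := by nlinarith
    rcases le_total 0 (2 * s - η) with h5 | h5
    · have h6 : μ ≤ s' / s := by
        rw [hμ]
        apply div_le_div_of_nonneg_right _ hs.le
        nlinarith
      have h7 : μ * (2 * s - η) ≤ s' / s * (2 * s - η) := mul_le_mul_of_nonneg_right h6 h5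
      have h8 : s' / s * (2 * s - η) = 2 * s' - s' * η / s := by field_simp
      have := min_le_right (2 * s') (s' * η / s)
      linarith
    · have h7 : μ * (2 * s - η) ≤ 0 := mul_nonpos_of_nonneg_of_nonpos hμ0 h5
      have := min_le_left (2 * s') (s' * η / s)
      linarith

lemma MSummand.nlo (h : MSummand i p) {v : X} (hv : ‖v - i (p v)‖ < ‖p v‖) (hn : NLO (p v)) :
    NLO v := by
  obtain ⟨s, hs, η, hη, hw⟩ := hn
  set γ := ‖p v‖ - ‖v - i (p v)‖ with hγ
  have hγ0 : 0 < γ := by rw [hγ]; linarith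
  set s' := min s (γ / 2) with hs'
  have hs'0 : 0 < s' := by positivity
  have hs's : s' ≤ s := min_le_left _ _
  have hs'γ : s' ≤ γ / 2 := min_le_right _ _
  have hvn : ‖p v‖ ≤ ‖v‖ := h.norm_p_le v
  refine ⟨s', hs'0, min (2 * s') (s' * η / s), by positivity, ?_⟩
  intro u hu
  have hpu : ‖p u‖ ≤ 1 := hu ▸ h.norm_p_le u
  have hqu : ‖u - i (p u)‖ ≤ 1 := hu ▸ h.norm_q_le u
  have hsc := nlo_scale hs hη hw hs'0 hs's (p u) hpu
  have hp' : ‖v + s' • u‖ = ‖p v + s' • p u‖ := by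
    rw [h.2 (v + s' • u), map_add, map_smul]
    apply max_eq_left
    have e1 : v + s' • u - i (p v + s' • p u) = (v - i (p v)) + s' • (u - i (p u)) := by
      rw [map_add, map_smul]; module
    rw [e1]
    have e2 := norm_add_le (v - i (p v)) (s' • (u - i (p u)))
    rw [norm_smul, Real.norm_of_nonneg hs'0.le] at e2
    have e3 : ‖p v‖ - s' ≤ ‖p v + s' • p u‖ := by
      have := norm_sub_norm_le (p v) (-(s' • p u))
      rw [sub_neg_eq_add, norm_neg, norm_smul, Real.norm_of_nonneg hs'0.le] at this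
      nlinarith
    nlinarith
  have hm' : ‖v - s' • u‖ = ‖p v - s' • p u‖ := by
    rw [h.2 (v - s' • u), map_sub, map_smul]
    apply max_eq_left
    have e1 : v - s' • u - i (p v - s' • p u) = (v - i (p v)) - s' • (u - i (p u)) := by
      rw [map_sub, map_smul]; module
    rw [e1]
    have e2 := norm_sub_le (v - i (p v)) (s' • (u - i (p u)))
    rw [norm_smul, Real.norm_of_nonneg hs'0.le] at e2
    have e3 : ‖p v‖ - s' ≤ ‖p v - s' • p u‖ := by
      have := norm_sub_norm_le (p v) (s' • p u)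
      rw [norm_smul, Real.norm_of_nonneg hs'0.le] at this
      nlinarith
    nlinarith
  rw [hp', hm']
  linarith

/-- splitting of a functional along an M-summand -/
lemma MSummand.split (h : MSummand i p) {f : StrongDual ℝ X} (hf : ‖f‖ ≤ 1) :
    ∃ l : ℝ, 0 ≤ l ∧ l ≤ 1 ∧ (∀ e, |f (i e)| ≤ l * ‖e‖) ∧
      ∀ x, |f (x - i (p x))| ≤ (1 - l) * ‖x - i (p x)‖ := by
  set f₁ : StrongDual ℝ E := f.comp i.toContinuousLinearMap with hf₁
  have hf₁a : ∀ e, f₁ e = f (i e) := fun e => rfl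
  have hle : ∀ x : X, |f x| ≤ ‖x‖ := by
    intro x
    have := f.le_of_opNorm_le hf x
    rwa [one_mul] at this
  have hl1 : ‖f₁‖ ≤ 1 := by
    refine ContinuousLinearMap.opNorm_le_bound _ zero_le_one fun e => ?_
    rw [hf₁a, one_mul, Real.norm_eq_abs, ← i.norm_map]
    exact hle _
  refine ⟨‖f₁‖, norm_nonneg _, hl1, fun e => f₁.le_opNorm e, ?_⟩
  intro x
  set y := x - i (p x) with hy
  have hpy : p y = 0 := by rw [hy, map_sub, h.1, sub_self]
  -- for all `e` with `‖e‖ ≤ ‖y‖`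
  have key : ∀ e : E, ‖e‖ ≤ ‖y‖ → f (i e) + |f y| ≤ ‖y‖ := by
    intro e he
    rcases le_total 0 (f y) with h0 | h0
    · rw [abs_of_nonneg h0, ← map_add]
      refine (le_abs_self _).trans ((hle _).trans ?_)
      rw [h.2 (i e + y), map_add, h.1, hpy, add_zero, add_sub_cancel_left]
      exact max_le he le_rfl
    · rw [abs_of_nonpos h0, ← sub_eq_add_neg, ← map_sub]
      refine (le_abs_self _).trans ((hle _).trans ?_)
      rw [h.2 (i e - y), map_sub, h.1, hpy, sub_zero]
      refine max_le he ?_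
      rw [show i e - y - i e = -y by abel, norm_neg]
  have h1 : ‖y‖ * ‖f₁‖ ≤ ‖y‖ - |f y| := by
    rcases eq_or_lt_of_le (norm_nonneg y) with h0 | h0
    · have := key 0 (by simp)
      rw [map_zero, map_zero] at this
      rw [← h0] at this ⊢
      linarith
    · rw [← le_div_iff₀' h0]
      have h3 : 0 ≤ ‖y‖ - |f y| := by linarith [hle y]
      refine ContinuousLinearMap.opNorm_le_bound _ (by positivity) fun e => ?_
      rcases eq_or_ne e 0 with rfl | he
      · simp
      · have hen : 0 < ‖e‖ := norm_pos_iff.2 he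
        have h4 : ∀ e' : E, ‖e'‖ = ‖e‖ → f₁ e' ≤ (‖y‖ - |f y|) / ‖y‖ * ‖e‖ := by
          intro e' he'
          have h5 := key ((‖y‖ / ‖e‖) • e') (by
            rw [norm_smul, Real.norm_of_nonneg (by positivity), he']
            field_simp
            exact le_rfl)
          rw [map_smul, map_smul, smul_eq_mul] at h5
          have h6 : ‖y‖ / ‖e‖ * f₁ e' ≤ ‖y‖ - |f y| := by rw [hf₁a]; linarith
          rw [div_mul_eq_mul_div, div_le_iff₀ hen] at h6
          rw [div_mul_eq_mul_div, le_div_iff₀ h0]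
          linarith
        rw [Real.norm_eq_abs, abs_le]
        constructor
        · have := h4 (-e) (norm_neg e)
          rw [map_neg] at this
          linarith
        · exact h4 e rfl
  linarith

lemma MSummand.sr (h : MSummand i p) {v : X} (hv : ‖v - i (p v)‖ < ‖p v‖) (hn : SR (p v)) :
    SR v := by
  classical
  obtain ⟨a, ha, η, hη, H⟩ := hn
  set γ := ‖p v‖ - ‖v - i (p v)‖ with hγ
  have hγ0 : 0 < γ := by rw [hγ]; linarith
  have hvn : ‖v‖ = ‖p v‖ := by rw [h.2 v]; exact max_eq_left hv.le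
  refine ⟨a / 2, by positivity, min (η / 2) (γ / 2), by positivity, ?_⟩
  intro W G hW ε hε
  have hη1 : min (η / 2) (γ / 2) ≤ η / 2 := min_le_left _ _
  have hη2 : min (η / 2) (γ / 2) ≤ γ / 2 := min_le_right _ _
  -- choose a functional in every slice
  have hch : ∀ w : X × ℝ, ∃ (f : StrongDual ℝ X) (l : ℝ), w ∈ W → f ∈ Slice w.1 w.2 ∧ 1 / 2 ≤ l ∧
      l ≤ 1 ∧ (∀ e, |f (i e)| ≤ l * ‖e‖) ∧
      ∀ x, |f (x - i (p x))| ≤ (1 - l) * ‖x - i (p x)‖ := by
    intro w
    by_cases hw : w ∈ W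
    · obtain ⟨⟨f, hf⟩, hf2⟩ := hW w hw
      obtain ⟨l, hl0, hl1, hl2, hl3⟩ := h.split hf.1
      refine ⟨f, l, fun _ => ⟨hf, ?_, hl1, hl2, hl3⟩⟩
      have h1 := hf2 f hf
      have h2 : f v = f (i (p v)) + f (v - i (p v)) := by rw [← map_add]; congr 1; abel
      have h3 := (le_abs_self _).trans (hl2 (p v))
      have h4 := (le_abs_self _).trans (hl3 v)
      rw [hvn] at h1
      by_contra hlt
      push Not at hlt
      have h5 : (1 - l) * ‖v - i (p v)‖ = (1 - l) * (‖p v‖ - γ) := by rw [hγ]; ring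
      nlinarith
    · exact ⟨0, 0, fun h' => absurd h' hw⟩
  choose f l hfl using hch
  -- the corresponding slices in `E`
  let σ : X × ℝ → E × ℝ := fun w => (p w.1, (w.2 - f w (w.1 - i (p w.1))) / l w)
  have hback : ∀ w ∈ W, ∀ g ∈ Slice (σ w).1 (σ w).2,
      ∃ F ∈ Slice w.1 w.2, (∀ e, F (i e) = l w * g e) ∧
        ∀ x, F x = l w * g (p x) + f w (x - i (p x)) := by
    rintro w hw g ⟨hg1, hg2⟩
    obtain ⟨hf, hl0, hl1, hl2, hl3⟩ := hfl w hw
    have hl : 0 < l w := by linarith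
    refine ⟨(l w) • (g.comp p) + (f w).comp (ContinuousLinearMap.id ℝ X -
      i.toContinuousLinearMap.comp p), ⟨?_, ?_⟩, ?_, ?_⟩
    · refine ContinuousLinearMap.opNorm_le_bound _ zero_le_one fun x => ?_
      have e1 : ((l w) • (g.comp p) + (f w).comp (ContinuousLinearMap.id ℝ X -
        i.toContinuousLinearMap.comp p)) x = l w * g (p x) + f w (x - i (p x)) := rfl
      rw [e1, Real.norm_eq_abs, one_mul]
      have e2 : |g (p x)| ≤ ‖p x‖ := by
        have := g.le_of_opNorm_le hg1 (p x)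
        rwa [one_mul] at this
      have e3 := hl3 x
      have e4 := h.norm_p_le x
      have e5 := h.norm_q_le x
      calc |l w * g (p x) + f w (x - i (p x))| ≤ |l w * g (p x)| + |f w (x - i (p x))| :=
            abs_add_le _ _
        _ = l w * |g (p x)| + |f w (x - i (p x))| := by rw [abs_mul, abs_of_pos hl]
        _ ≤ l w * ‖x‖ + (1 - l w) * ‖x‖ := by
            refine add_le_add (mul_le_mul_of_nonneg_left (e2.trans e4) hl.le) (e3.trans ?_)
            exact mul_le_mul_of_nonneg_left e5 (by linarith)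
        _ = ‖x‖ := by ring
    · have e1 : ((l w) • (g.comp p) + (f w).comp (ContinuousLinearMap.id ℝ X -
        i.toContinuousLinearMap.comp p)) w.1 = l w * g (p w.1) + f w (w.1 - i (p w.1)) := rfl
      rw [e1]
      have e2 : (w.2 - f w (w.1 - i (p w.1))) / l w < g (p w.1) := hg2
      rw [div_lt_iff₀ hl] at e2
      linarith
    · intro e
      have e1 : ((l w) • (g.comp p) + (f w).comp (ContinuousLinearMap.id ℝ X -
        i.toContinuousLinearMap.comp p)) (i e) = l w * g (p (i e)) + f w (i e - i (p (i e))) := rfl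
      rw [e1, h.1, sub_self, map_zero, add_zero]
    · intro x
      rfl
  obtain ⟨u, hu1, hu2, hu3⟩ := H (W.image σ) (G.image fun g => g.comp i.toContinuousLinearMap) (by
    intro q hq
    obtain ⟨w, hw, rfl⟩ := Finset.mem_image.1 hq
    obtain ⟨hf, hl0, hl1, hl2, hl3⟩ := hfl w hw
    have hl : 0 < l w := by linarith
    refine ⟨?_, ?_⟩
    · refine ⟨(l w)⁻¹ • ((f w).comp i.toContinuousLinearMap), ?_, ?_⟩
      · refine ContinuousLinearMap.opNorm_le_bound _ zero_le_one fun e => ?_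
        have e1 : ((l w)⁻¹ • ((f w).comp i.toContinuousLinearMap)) e = (l w)⁻¹ * f w (i e) := rfl
        rw [e1, Real.norm_eq_abs, abs_mul, abs_of_pos (inv_pos.2 hl), one_mul,
          inv_mul_le_iff₀ hl]
        exact hl2 e
      · have e1 : ((l w)⁻¹ • ((f w).comp i.toContinuousLinearMap)) (p w.1) =
          (l w)⁻¹ * f w (i (p w.1)) := rfl
        change (w.2 - f w (w.1 - i (p w.1))) / l w <
          ((l w)⁻¹ • ((f w).comp i.toContinuousLinearMap)) (p w.1)
        rw [e1, div_lt_iff₀ hl]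
        have e2 : (l w)⁻¹ * f w (i (p w.1)) * l w = f w (i (p w.1)) := by field_simp
        have e3 : f w (i (p w.1)) + f w (w.1 - i (p w.1)) = f w w.1 := by
          rw [← map_add]; congr 1; abel
        have e4 := hf.2
        rw [e2]
        linarith
    · intro g hg
      obtain ⟨F, hF1, -, hF3⟩ := hback w hw g hg
      have e1 := (hW w hw).2 F hF1
      rw [hF3, hvn] at e1
      have e2 := (le_abs_self _).trans (hl3 v)
      have e3 : (1 - l w) * ‖v - i (p v)‖ ≤ (1 - l w) * ‖p v‖ :=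
        mul_le_mul_of_nonneg_left hv.le (by linarith)
      have e4 : l w * (‖p v‖ - η) < l w * g (p v) := by nlinarith
      exact lt_of_mul_lt_mul_left e4 hl.le) ε hε
  refine ⟨i u, by rw [i.norm_map]; exact hu1, ?_, ?_⟩
  · intro g hg
    exact hu2 _ (Finset.mem_image_of_mem _ hg)
  · intro w hw
    obtain ⟨g, hg1, hg2⟩ := hu3 _ (Finset.mem_image_of_mem _ hw)
    obtain ⟨F, hF1, hF2, -⟩ := hback w hw g hg1
    obtain ⟨hf, hl0, hl1, hl2, hl3⟩ := hfl w hw
    refine ⟨F, hF1, ?_⟩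
    rw [hF2]
    nlinarith

/-- approximation by good points through one M-summand -/
lemma MSummand.near (h : MSummand i p) (hG : Good E) {f : X} {ε : ℝ} (hε : 0 < ε)
    (hεf : ε ≤ ‖f‖) (hk : ‖f‖ - ε / 8 < ‖p f‖) : ∃ v, dist v f ≤ 5 * ε / 16 ∧ (NLO v ∨ SR v) := by
  have hpk : 0 < ‖p f‖ := by linarith
  set t := 1 + ε / (4 * ‖p f‖) with ht
  have ht0 : 0 < t := by positivity
  obtain ⟨w, hw1, hw2⟩ := hG.exists_dist_lt (t • p f) (show 0 < ε / 16 by positivity)
  have htn : ‖t • p f‖ = ‖p f‖ + ε / 4 := by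
    rw [norm_smul, Real.norm_of_nonneg ht0.le, ht]
    field_simp
  set v := f - i (p f) + i w with hv
  have hpv : p v = w := by
    rw [hv, map_add, map_sub, h.1, h.1, sub_self, zero_add]
  have hqv : v - i (p v) = f - i (p f) := by rw [hpv, hv]; abel
  have hwn : ‖p f‖ + ε / 4 - ε / 16 ≤ ‖w‖ := by
    rw [dist_eq_norm] at hw2
    have := norm_sub_norm_le (t • p f) w
    rw [htn] at this
    linarith
  have hlt : ‖v - i (p v)‖ < ‖p v‖ := by
    rw [hqv, hpv]
    have := h.norm_q_le f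
    linarith
  refine ⟨v, ?_, ?_⟩
  · have e1 : v - f = i (w - p f) := by rw [hv, map_sub]; abel
    rw [dist_eq_norm, e1, i.norm_map]
    have e2 : w - p f = (w - t • p f) + (t • p f - p f) := by abel
    have e3 : ‖t • p f - p f‖ = ε / 4 := by
      rw [show t • p f - p f = (ε / (4 * ‖p f‖)) • p f by rw [ht]; module, norm_smul,
        Real.norm_of_nonneg (by positivity)]
      field_simp
    rw [e2]
    refine (norm_add_le _ _).trans ?_
    rw [e3]
    rw [dist_comm, dist_eq_norm] at hw2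
    linarith
  · rcases hw1 with hw1 | hw1
    · exact Or.inl (h.nlo hlt (hpv ▸ hw1))
    · exact Or.inr (h.sr hlt (hpv ▸ hw1))

lemma good_of_near [Nontrivial X]
    (H : ∀ f : X, ∀ ε : ℝ, 0 < ε → ε ≤ ‖f‖ → ∃ v, dist v f ≤ 5 * ε / 16 ∧ (NLO v ∨ SR v)) :
    Good X := by
  have hdense : Dense {x : X | x ≠ 0} := dense_compl_singleton (0 : X)
  unfold Good
  rw [Metric.dense_iff]
  intro f₀ ε₀ hε₀
  obtain ⟨f, hf0, hf1⟩ := Metric.dense_iff.1 hdense f₀ (ε₀ / 2) (by positivity)
  have hff : dist f f₀ < ε₀ / 2 := hf0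
  have hf : 0 < ‖f‖ := norm_pos_iff.2 hf1
  obtain ⟨v, hv1, hv2⟩ := H f (min (ε₀ / 2) ‖f‖) (by positivity) (min_le_right _ _)
  refine ⟨v, ?_, hv2⟩
  rw [mem_ball]
  have h1 : min (ε₀ / 2) ‖f‖ ≤ ε₀ / 2 := min_le_left _ _
  have := dist_triangle v f f₀
  linarith

/-- a norming family of good M-summands -/
theorem good_of_msummands {I : Type*} {E : I → Type*} [∀ k, NormedAddCommGroup (E k)]
    [∀ k, NormedSpace ℝ (E k)] (i : ∀ k, E k →ₗᵢ[ℝ] X) (p : ∀ k, X →L[ℝ] E k)
    (hM : ∀ k, MSummand (i k) (p k)) (hG : ∀ k, Good (E k))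
    (hn : ∀ x : X, x ≠ 0 → ∀ ε > (0:ℝ), ∃ k, ‖x‖ - ε < ‖p k x‖) [Nontrivial X] : Good X := by
  apply good_of_near
  intro f ε hε hεf
  have hf1 : f ≠ 0 := norm_pos_iff.1 (hε.trans_le hεf)
  obtain ⟨k, hk⟩ := hn f hf1 (ε / 8) (by positivity)
  exact (hM k).near (hG k) hε hεf hk

end Pool.Agent.TH326.SF
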