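import Pool.Agent.TH326.SF.Esc
import Pool.Agent.H130R9.SF5

/-!
# Octahedral norms are simultaneously rough at every point
-/

set_option autoImplicit false
set_option linter.all false

open Set Metric Topology Filter

namespace Pool.Agent.TH326.SF

open Pool.Agent.H130R9

variable {X : Type*} [NormedAddCommGroup X] [NormedSpace ℝ X]

lemma slice_lt {c : X} {β : ℝ} (h : (Slice c β).Nonempty) : β < ‖c‖ := by
  obtain ⟨φ, hφ1, hφ2⟩ := h
  have := φ.le_of_opNorm_le hφ1 c
  rw [one_mul] at this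
  exact hφ2.trans_le ((le_abs_self _).trans this)

theorem sr_of_slow
    (hS : ∃ a > (0:ℝ), ∀ F : Finset X, ∀ ε > (0:ℝ), ∃ u : X, ‖u‖ = 1 ∧ ∀ v ∈ F, ∀ t : ℝ, 0 ≤ t →
      ‖v‖ + a * t - ε ≤ ‖v + t • u‖) (v : X) : SR v := by
  classical
  obtain ⟨a, ha, H⟩ := hS
  refine ⟨a / 2, by positivity, 1, one_pos, ?_⟩
  intro W G hW ε hε
  obtain ⟨T, hT0, hT⟩ : ∃ T > (0:ℝ), ∀ w ∈ W, 4 * T < ‖w.1‖ - w.2 := by
    have hev : ∀ᶠ e in 𝓝[>] (0:ℝ), ∀ w ∈ (W : Set (X × ℝ)), e < (‖w.1‖ - w.2) / 4 := by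
      rw [eventually_all_finite W.finite_toSet]
      intro w hw
      have := slice_lt (hW w hw).1
      filter_upwards [Ioo_mem_nhdsGT (by linarith : (0:ℝ) < (‖w.1‖ - w.2) / 4)] with e he
      exact he.2
    obtain ⟨e, he1, he2⟩ := (hev.and (Ioo_mem_nhdsGT one_pos)).exists
    exact ⟨e, he2.1, fun w hw => by linarith [he1 w hw]⟩
  set e := min (a * T / 4) T with he
  have he0 : 0 < e := by positivity
  have he1 : e ≤ a * T / 4 := min_le_left _ _
  have he2 : e ≤ T := min_le_right _ _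
  choose pick hp1 hp2 using fun F => H F e he0
  let Fs : Finset X → Finset X := fun P =>
    W.image (fun w => w.1) ∪ (W ×ˢ P).image (fun q => -(q.1.1 + T • q.2))
  let P : ℕ → Finset X := fun n => Nat.rec ∅ (fun _ p => insert (pick (Fs p)) p) n
  have hPs : ∀ n, P (n + 1) = insert (pick (Fs (P n))) (P n) := fun n => rfl
  set y : ℕ → X := fun n => pick (Fs (P n)) with hy
  have hyP : ∀ i k, y i ∈ P (i + 1 + k) := by
    intro i k
    induction k with
    | zero => rw [add_zero, hPs]; exact Finset.mem_insert_self _ _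
    | succ k ih => rw [← add_assoc, hPs]; exact Finset.mem_insert_of_mem ih
  have hy1 : ∀ n, ‖y n‖ = 1 := fun n => hp1 _
  obtain ⟨M, hM⟩ := pigeon (X := X) (κ := StrongDual ℝ X) (T := (G : Set (StrongDual ℝ X)))
    G.finite_toSet (fun g => g) hε
  obtain ⟨m, n, hmn, -, hg⟩ := hM y (fun n => (hy1 n).le)
  refine ⟨(1 / 2 : ℝ) • (y n - y m), ?_, ?_, ?_⟩
  · rw [norm_smul, Real.norm_of_nonneg (by norm_num)]
    have := norm_sub_le (y n) (y m)
    rw [hy1, hy1] at this
    linarith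
  · intro g hgG
    have h1 := hg g hgG
    rw [map_smul, smul_eq_mul, abs_mul, abs_of_pos (by norm_num : (0:ℝ) < 1 / 2)]
    have := abs_nonneg (g (y n - y m))
    linarith
  · intro w hw
    have hmem : y m ∈ P n := by
      obtain ⟨k, rfl⟩ := Nat.exists_eq_add_of_lt hmn
      have := hyP m k
      rwa [show m + k + 1 = m + 1 + k by ring]
    have h1 := hp2 (Fs (P m)) w.1 (Finset.mem_union_left _ (Finset.mem_image_of_mem _ hw)) T hT0.le
    have h2 := hp2 (Fs (P n)) (-(w.1 + T • y m)) (Finset.mem_union_right _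
      (Finset.mem_image.2 ⟨(w, y m), Finset.mem_product.2 ⟨hw, hmem⟩, rfl⟩)) T hT0.le
    have e1 : ‖-(w.1 + T • y m) + T • y n‖ = ‖w.1 + T • (y m - y n)‖ := by
      rw [← norm_neg]
      congr 1
      module
    change ‖w.1‖ + a * T - e ≤ ‖w.1 + T • y m‖ at h1
    change ‖-(w.1 + T • y m)‖ + a * T - e ≤ ‖-(w.1 + T • y m) + T • y n‖ at h2
    rw [norm_neg, e1] at h2
    obtain ⟨f, hf1, hf2⟩ := exists_dual_vector'' ℝ (w.1 + T • (y m - y n))
    have hf3 : f (w.1 + T • (y m - y n)) = ‖w.1 + T • (y m - y n)‖ := hf2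
    rw [map_add, map_smul, smul_eq_mul] at hf3
    have hle : ∀ x : X, f x ≤ ‖x‖ := by
      intro x
      have := f.le_of_opNorm_le hf1 x
      rw [one_mul] at this
      exact (le_abs_self _).trans this
    have h3 := hle w.1
    have h4 : f (y m - y n) ≤ 2 := by
      have := norm_sub_le (y m) (y n)
      rw [hy1, hy1] at this
      linarith [hle (y m - y n)]
    have h5 := hT w hw
    refine ⟨f, ⟨hf1, ?_⟩, ?_⟩
    · have : T * f (y m - y n) ≤ T * 2 := mul_le_mul_of_nonneg_left h4 hT0.le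
      nlinarith
    · have h6 : f ((1 / 2 : ℝ) • (y n - y m)) = -(1 / 2) * f (y m - y n) := by
        rw [show (1 / 2 : ℝ) • (y n - y m) = (-(1 / 2) : ℝ) • (y m - y n) by module, map_smul,
          smul_eq_mul]
      rw [h6]
      have h7 : 2 * a * T - 2 * e ≤ T * f (y m - y n) := by linarith
      have h8 : T * (3 / 2 * a) ≤ T * f (y m - y n) := by nlinarith
      have h9 := le_of_mul_le_mul_left h8 hT0
      linarith

end Pool.Agent.TH326.SF
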