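import Pool.Agent.TH326.SF.Cls

/-!
# Spaces whose dual ball has extreme points spanning L-summands: dual side
-/

set_option autoImplicit false
set_option linter.all false

open Set Metric Topology Filter

namespace Pool.Agent.TH326.SF

/-- extreme points of the dual unit ball -/
def Xt (X : Type*) [NormedAddCommGroup X] [NormedSpace ℝ X] : Set (StrongDual ℝ X) :=
  (closedBall (0 : StrongDual ℝ X) 1).extremePoints ℝ

/-- `P` is the L-projection onto the line of `e` -/
def LLine {X : Type*} [NormedAddCommGroup X] [NormedSpace ℝ X] (e : StrongDual ℝ X)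
    (P : StrongDual ℝ X →ₗ[ℝ] ℝ) : Prop :=
  P e = 1 ∧ ∀ g, ‖g‖ = |P g| + ‖g - P g • e‖

variable {X : Type*} [NormedAddCommGroup X] [NormedSpace ℝ X]

lemma exists_ext (y : X) : ∃ f ∈ Xt X, f y = ‖y‖ := by
  have hLC : LocallyConvexSpace ℝ (WeakDual ℝ X) :=
    inferInstanceAs (LocallyConvexSpace ℝ (WeakBilin (topDualPairing ℝ X)))
  let s : Set (WeakDual ℝ X) := WeakDual.toStrongDual ⁻¹' closedBall 0 1
  have hs : IsCompact s := WeakDual.isCompact_closedBall 0 1
  let F : Set (WeakDual ℝ X) := s ∩ {f : WeakDual ℝ X | f y = ‖y‖}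
  have hF : IsCompact F :=
    hs.inter_right (isClosed_eq (WeakDual.eval_continuous y) continuous_const)
  have hne : F.Nonempty := by
    obtain ⟨g, hg1, hg2⟩ := exists_dual_vector'' ℝ y
    refine ⟨WeakDual.toStrongDual.symm g, ?_, ?_⟩
    · change g ∈ closedBall (0 : StrongDual ℝ X) 1
      rw [mem_closedBall_zero_iff]
      exact hg1
    · exact hg2
  obtain ⟨f, hf⟩ := hF.extremePoints_nonempty hne
  rw [mem_extremePoints_iff_left] at hf
  refine ⟨WeakDual.toStrongDual f, ?_, hf.1.2⟩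
  unfold Xt
  rw [mem_extremePoints_iff_left]
  refine ⟨hf.1.1, fun f₁ h₁ f₂ h₂ hmem => ?_⟩
  have hle : ∀ g ∈ closedBall (0 : StrongDual ℝ X) 1, g y ≤ ‖y‖ := by
    intro g hg
    rw [mem_closedBall_zero_iff] at hg
    have := g.le_of_opNorm_le hg y
    rw [one_mul] at this
    exact (le_abs_self _).trans this
  obtain ⟨a, b, ha, hb, hab, habf⟩ := hmem
  have hfy : f y = ‖y‖ := hf.1.2
  have h3 : a * f₁ y + b * f₂ y = ‖y‖ := by
    rw [← hfy]
    have := congrArg (fun g : StrongDual ℝ X => g y) habf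
    exact this
  have h1y := hle f₁ h₁
  have h2y := hle f₂ h₂
  obtain rfl : b = 1 - a := by linarith
  have h1e : f₁ y = ‖y‖ := by
    by_contra hlt
    have hlt' : f₁ y < ‖y‖ := lt_of_le_of_ne h1y hlt
    nlinarith [mul_pos ha (sub_pos.2 hlt'), mul_nonneg hb.le (sub_nonneg.2 h2y)]
  have h2e : f₂ y = ‖y‖ := by
    by_contra hlt
    have hlt' : f₂ y < ‖y‖ := lt_of_le_of_ne h2y hlt
    nlinarith [mul_nonneg ha.le (sub_nonneg.2 h1y), mul_pos hb (sub_pos.2 hlt')]
  have := hf.2 (WeakDual.toStrongDual.symm f₁) ⟨h₁, h1e⟩ (WeakDual.toStrongDual.symm f₂)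
    ⟨h₂, h2e⟩ ⟨a, 1 - a, ha, hb, hab, habf⟩
  exact this

lemma ext_mid {f h : StrongDual ℝ X} (hf : f ∈ Xt X) (h1 : ‖f + h‖ ≤ 1) (h2 : ‖f - h‖ ≤ 1) :
    h = 0 := by
  unfold Xt at hf
  rw [mem_extremePoints_iff_left] at hf
  have := hf.2 (f + h) (by rwa [mem_closedBall_zero_iff]) (f - h)
    (by rwa [mem_closedBall_zero_iff]) ⟨1 / 2, 1 / 2, by norm_num, by norm_num, by norm_num, by
      rw [← smul_add]
      have : f + h + (f - h) = (2:ℝ) • f := by rw [two_smul]; abel
      rw [this, smul_smul]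
      norm_num⟩
  simpa using this

lemma ext_norm_le {f : StrongDual ℝ X} (hf : f ∈ Xt X) : ‖f‖ ≤ 1 := by
  have := hf.1
  rwa [mem_closedBall_zero_iff] at this

lemma LLine.norm {e : StrongDual ℝ X} {P : StrongDual ℝ X →ₗ[ℝ] ℝ} (h : LLine e P) :
    ‖e‖ = 1 := by
  rw [h.2 e, h.1]
  simp

lemma LLine.norm_comb {e : StrongDual ℝ X} {P : StrongDual ℝ X →ₗ[ℝ] ℝ} (h : LLine e P)
    (s : ℝ) (z : StrongDual ℝ X) (hz : P z = 0) : ‖s • e + z‖ = |s| + ‖z‖ := by
  rw [h.2 (s • e + z), map_add, map_smul, h.1, hz]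
  simp

lemma LLine.eq_zero {e : StrongDual ℝ X} {P : StrongDual ℝ X →ₗ[ℝ] ℝ} (h : LLine e P)
    {f : StrongDual ℝ X} (hf : f ∈ Xt X) (hfe : f ≠ e) (hfe' : f ≠ -e) : P f = 0 := by
  by_contra hP
  set l := P f with hl
  set z := f - l • e with hz
  have hPz : P z = 0 := by rw [hz, map_sub, map_smul, h.1, ← hl]; simp
  have hf1 : |l| + ‖z‖ ≤ 1 := by
    have := h.2 f
    rw [← hl, ← hz] at this
    linarith [ext_norm_le hf]
  have hfz : f = l • e + z := by rw [hz]; abel
  have hl0 := abs_nonneg l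
  have hz0 := norm_nonneg z
  have hc : ‖z‖ * l = 0 := by
    have hh : (‖z‖ * l) • e - |l| • z = 0 := by
      apply ext_mid hf
      · have : f + ((‖z‖ * l) • e - |l| • z) = ((1 + ‖z‖) * l) • e + (1 - |l|) • z := by
          conv_lhs => rw [hfz]
          module
        rw [this, h.norm_comb _ _ (by rw [map_smul, hPz, smul_zero]), norm_smul, Real.norm_eq_abs,
          abs_mul, abs_of_nonneg (by linarith : 0 ≤ 1 + ‖z‖),
          abs_of_nonneg (by linarith : 0 ≤ 1 - |l|)]
        nlinarith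
      · have : f - ((‖z‖ * l) • e - |l| • z) = ((1 - ‖z‖) * l) • e + (1 + |l|) • z := by
          conv_lhs => rw [hfz]
          module
        rw [this, h.norm_comb _ _ (by rw [map_smul, hPz, smul_zero]), norm_smul, Real.norm_eq_abs,
          abs_mul, abs_of_nonneg (by linarith : 0 ≤ 1 - ‖z‖),
          abs_of_nonneg (by linarith : 0 ≤ 1 + |l|)]
        nlinarith
    have := congrArg P hh
    rw [map_sub, map_smul, map_smul, h.1, hPz] at this
    simpa using this
  have hz1 : z = 0 := by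
    rcases mul_eq_zero.1 hc with h' | h'
    · exact norm_eq_zero.1 h'
    · exact absurd h' hP
  rw [hz1, add_zero] at hfz
  have hl1 : |l| ≤ 1 := by linarith
  have hc2 : (1 - |l|) • e = 0 := by
    apply ext_mid hf
    · rw [hfz, ← add_smul, norm_smul, h.norm, mul_one, Real.norm_eq_abs, abs_le]
      have := abs_le.1 (le_refl |l|)
      have := le_abs_self l
      constructor <;> linarith
    · have h0 : l • e - (1 - |l|) • e = (l - (1 - |l|)) • e := by module
      rw [hfz, h0, norm_smul, h.norm, mul_one, Real.norm_eq_abs, abs_le]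
      have := abs_le.1 (le_refl |l|)
      have := le_abs_self l
      constructor <;> linarith
  have he0 : e ≠ 0 := fun h' => by
    have := h.norm
    rw [h', norm_zero] at this
    norm_num at this
  rcases smul_eq_zero.1 hc2 with h' | h'
  · have hl2 : |l| = 1 := by linarith
    rcases (abs_eq (by norm_num : (0:ℝ) ≤ 1)).1 hl2 with h'' | h''
    · rw [h'', one_smul] at hfz
      exact hfe hfz
    · have h0 : (-1 : ℝ) • e = -e := by module
      rw [h'', h0] at hfz
      exact hfe' hfz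
  · exact he0 h'

lemma sum_le {ι : Type*} (B : Finset ι) (e : ι → StrongDual ℝ X)
    (P : ι → (StrongDual ℝ X →ₗ[ℝ] ℝ)) (hL : ∀ i ∈ B, LLine (e i) (P i))
    (ho : ∀ i ∈ B, ∀ j ∈ B, i ≠ j → P i (e j) = 0) (g : StrongDual ℝ X) :
    ∑ i ∈ B, |P i g| ≤ ‖g‖ := by
  classical
  induction B using Finset.induction_on generalizing g with
  | empty => simp
  | insert j B hj ih =>
    rw [Finset.sum_insert hj, (hL j (Finset.mem_insert_self _ _)).2 g]
    have h1 := ih (fun i hi => hL i (Finset.mem_insert_of_mem hi))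
      (fun i hi k hk hik => ho i (Finset.mem_insert_of_mem hi) k (Finset.mem_insert_of_mem hk) hik)
      (g - P j g • e j)
    have h2 : ∑ i ∈ B, |P i (g - P j g • e j)| = ∑ i ∈ B, |P i g| := by
      refine Finset.sum_congr rfl fun i hi => ?_
      rw [map_sub, map_smul, ho i (Finset.mem_insert_of_mem hi) j (Finset.mem_insert_self _ _)
        (fun h' => hj (h' ▸ hi))]
      simp
    linarith

/-- finite-dimensional form of Goldstine's theorem -/
lemma goldstine (Ψ : StrongDual ℝ X →ₗ[ℝ] ℝ) (hΨ : ∀ g, |Ψ g| ≤ ‖g‖) {ι : Type*} [Finite ι]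
    (g : ι → StrongDual ℝ X) {δ : ℝ} (hδ : 0 < δ) :
    ∃ u : X, ‖u‖ ≤ 1 ∧ ∀ i, |g i u - Ψ (g i)| < δ := by
  classical
  have := Fintype.ofFinite ι
  let T : X →L[ℝ] (ι → ℝ) := ContinuousLinearMap.pi g
  have hTa : ∀ u i, T u i = g i u := fun u i => rfl
  let y : ι → ℝ := fun i => Ψ (g i)
  by_contra hno
  push Not at hno
  have hdis : Disjoint (ball y δ) (T '' closedBall (0:X) 1) := by
    rw [Set.disjoint_left]
    rintro _ hz ⟨u, hu, rfl⟩
    obtain ⟨i, hi⟩ := hno u (by rwa [mem_closedBall_zero_iff] at hu)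
    rw [mem_ball] at hz
    have h1 := dist_le_pi_dist (T u) y i
    rw [Real.dist_eq] at h1
    have h2 : |g i u - Ψ (g i)| ≤ dist (T u) y := h1
    linarith
  obtain ⟨f, s, hf1, hf2⟩ := geometric_hahn_banach_open (convex_ball y δ) isOpen_ball
    ((convex_closedBall (0:X) 1).linear_image T.toLinearMap) hdis
  have hfy : f y < s := hf1 y (mem_ball_self hδ)
  let h : StrongDual ℝ X := f.comp T
  have hh : ∀ z : ι → ℝ, f z = ∑ i, z i * f (Pi.single i 1) := by
    intro z
    conv_lhs => rw [← Finset.univ_sum_single z]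
    rw [map_sum]
    refine Finset.sum_congr rfl fun i _ => ?_
    have : (Pi.single i (z i) : ι → ℝ) = z i • (Pi.single i (1:ℝ) : ι → ℝ) := by
      rw [← Pi.single_smul, smul_eq_mul, mul_one]
    rw [this, map_smul, smul_eq_mul]
  have hh2 : h = ∑ i, f (Pi.single i 1) • g i := by
    ext u
    change f (T u) = _
    rw [hh, ContinuousLinearMap.sum_apply]
    refine Finset.sum_congr rfl fun i _ => ?_
    rw [hTa, ContinuousLinearMap.smul_apply, smul_eq_mul, mul_comm]
  have hΨh : Ψ h = f y := by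
    rw [hh2, map_sum, hh]
    refine Finset.sum_congr rfl fun i _ => ?_
    rw [map_smul, smul_eq_mul, mul_comm]
  have h3 : ∀ u : X, ‖u‖ ≤ 1 → s ≤ h u := fun u hu =>
    hf2 _ ⟨u, by rwa [mem_closedBall_zero_iff], rfl⟩
  have hs0 : s ≤ 0 := by
    have := h3 0 (by simp)
    rwa [map_zero] at this
  have h4 : ‖h‖ ≤ -s := by
    refine ContinuousLinearMap.opNorm_le_of_unit_norm (by linarith) ?_
    intro u hu
    rw [Real.norm_eq_abs, abs_le]
    have h5 := h3 u hu.le
    have h6 := h3 (-u) (by rw [norm_neg]; exact hu.le)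
    rw [map_neg] at h6
    constructor <;> linarith
  have h5 := (abs_le.1 (hΨ h)).1
  linarith

end Pool.Agent.TH326.SF
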