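import Pool.Agent.TH326.SF.Pre1

/-!
# Spaces whose dual ball has extreme points spanning L-summands are good
-/

set_option autoImplicit false
set_option linter.all false

open Set Metric Topology Filter

namespace Pool.Agent.TH326.SF

open Pool.Agent.H621R3.SG (NLO)

variable {X : Type*} [NormedAddCommGroup X] [NormedSpace ℝ X]

lemma apply_le_norm {f : StrongDual ℝ X} (hf : ‖f‖ ≤ 1) (y : X) : |f y| ≤ ‖y‖ := by
  have := f.le_of_opNorm_le hf y
  rwa [one_mul] at this

lemma sr_of_infinite {v : X} {η : ℝ} (hη : 0 < η) (hηv : η ≤ ‖v‖)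
    (hL : ∀ e ∈ Xt X, ∃ P, LLine e P)
    (H : ∀ (c : X) (β : ℝ), (Slice c β).Nonempty → (∀ f ∈ Slice c β, ‖v‖ - η < f v) →
      (Slice c β ∩ Xt X).Infinite) : SR v := by
  classical
  refine ⟨1 / 2, by norm_num, η, hη, ?_⟩
  intro W G hW ε hε
  choose! P hP using hL
  have horth : ∀ e ∈ Xt X, ∀ f ∈ Xt X, 0 < e v → 0 < f v → e ≠ f → P e f = 0 := by
    intro e he f hf hev hfv hef
    apply (hP e he).eq_zero hf (Ne.symm hef)
    intro h'
    rw [h', ContinuousLinearMap.neg_apply] at hfv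
    linarith
  set κ : ℝ := ε / (2 * (W.card + 1)) with hκ
  have hκ0 : 0 < κ := by positivity
  have hexc1 : ∀ g : StrongDual ℝ X,
      {e : StrongDual ℝ X | e ∈ Xt X ∧ 0 < e v ∧ κ < |P e g|}.Finite := by
    intro g
    by_contra hinf
    obtain ⟨N, hN⟩ := exists_nat_gt (‖g‖ / κ)
    obtain ⟨t, ht1, ht2⟩ := Set.Infinite.exists_subset_card_eq hinf N
    have h1 := sum_le t id P (fun e he => hP e (ht1 he).1)
      (fun e he f hf hef => horth e (ht1 he).1 f (ht1 hf).1 (ht1 he).2.1 (ht1 hf).2.1 hef) g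
    have h2 : (N : ℝ) * κ ≤ ∑ i ∈ t, |P i g| := by
      rw [← ht2, ← nsmul_eq_mul]
      exact Finset.card_nsmul_le_sum _ _ _ fun e he => (ht1 he).2.2.le
    rw [div_lt_iff₀ hκ0] at hN
    linarith
  set exc : Set (StrongDual ℝ X) := ⋃ g ∈ (G : Set (StrongDual ℝ X)),
    {e : StrongDual ℝ X | e ∈ Xt X ∧ 0 < e v ∧ κ < |P e g|} with hexcdef
  have hexc : exc.Finite := G.finite_toSet.biUnion fun g _ => hexc1 g
  obtain ⟨p, hp1, hp2⟩ := exists_inj (B := W)
    (G := fun w => (Slice w.1.1 w.1.2 ∩ Xt X) \ exc)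
    (fun w => (H _ _ (hW w.1 w.2).1 (hW w.1 w.2).2).diff hexc)
  have hpS : ∀ w : W, p w ∈ Slice w.1.1 w.1.2 := fun w => (hp2 w).1.1
  have hpX : ∀ w : W, p w ∈ Xt X := fun w => (hp2 w).1.2
  have hpv : ∀ w : W, 0 < p w v := fun w => by
    have := (hW w.1 w.2).2 _ (hpS w)
    linarith
  have hpg : ∀ w : W, ∀ g ∈ G, |P (p w) g| ≤ κ := by
    intro w g hg
    by_contra hlt
    push Not at hlt
    exact (hp2 w).2 (mem_biUnion (show g ∈ (G : Set (StrongDual ℝ X)) from hg)
      ⟨hpX w, hpv w, hlt⟩)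
  have hpo : ∀ w w' : W, w ≠ w' → P (p w) (p w') = 0 := fun w w' hne =>
    horth _ (hpX w) _ (hpX w') (hpv w) (hpv w') (fun h' => hne (hp1 h'))
  let Ψ : StrongDual ℝ X →ₗ[ℝ] ℝ := -∑ w : W, P (p w)
  have hΨa : ∀ g, Ψ g = -∑ w : W, P (p w) g := fun g => by
    simp [Ψ, LinearMap.sum_apply]
  have hΨ : ∀ g, |Ψ g| ≤ ‖g‖ := by
    intro g
    rw [hΨa, abs_neg]
    refine (Finset.abs_sum_le_sum_abs _ _).trans ?_
    exact sum_le Finset.univ p (fun w => P (p w)) (fun w _ => hP _ (hpX w))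
      (fun w _ w' _ hne => hpo w w' hne) g
  have hΨp : ∀ w : W, Ψ (p w) = -1 := by
    intro w
    rw [hΨa, Finset.sum_eq_single w (fun w' _ hne => hpo w' w hne)
      (fun h' => absurd (Finset.mem_univ _) h'), (hP _ (hpX w)).1]
  have hΨg : ∀ g ∈ G, |Ψ g| ≤ ε / 2 := by
    intro g hg
    rw [hΨa, abs_neg]
    refine (Finset.abs_sum_le_sum_abs _ _).trans ?_
    refine (Finset.sum_le_card_nsmul _ _ κ fun w _ => hpg w g hg).trans ?_
    rw [Finset.card_univ, Fintype.card_coe, nsmul_eq_mul, hκ]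
    have hc : (0:ℝ) ≤ W.card := Nat.cast_nonneg _
    rw [mul_div_assoc', div_le_iff₀ (by positivity)]
    nlinarith
  obtain ⟨u, hu1, hu2⟩ := goldstine Ψ hΨ
    (Sum.elim p (fun g : G => (g : StrongDual ℝ X))) (δ := min (1 / 4) (ε / 2)) (by positivity)
  refine ⟨u, hu1, ?_, ?_⟩
  · intro g hg
    have h1 : |g u - Ψ g| < min (1 / 4) (ε / 2) := hu2 (Sum.inr ⟨g, hg⟩)
    have h2 := h1.trans_le (min_le_right _ _)
    have h3 := hΨg g hg
    have h4 : |g u| ≤ |g u - Ψ g| + |Ψ g| := by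
      have := abs_add_le (g u - Ψ g) (Ψ g)
      rwa [sub_add_cancel] at this
    linarith
  · intro w hw
    refine ⟨p ⟨w, hw⟩, hpS ⟨w, hw⟩, ?_⟩
    have h1 : |p ⟨w, hw⟩ u - Ψ (p ⟨w, hw⟩)| < min (1 / 4) (ε / 2) := hu2 (Sum.inl ⟨w, hw⟩)
    have h2 := (abs_lt.1 (h1.trans_le (min_le_left _ _))).2
    rw [hΨp] at h2
    linarith

/-- isolating an extreme point -/
lemma isolate {v : X} {η : ℝ} (hηv : η ≤ ‖v‖)
    (hL : ∀ e ∈ Xt X, ∃ P, LLine e P) {c : X} {β : ℝ} (hne : (Slice c β).Nonempty)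
    (hsub : ∀ f ∈ Slice c β, ‖v‖ - η < f v) (hfin : (Slice c β ∩ Xt X).Finite) :
    ∃ e ∈ Xt X, ‖v‖ - η < e v ∧ ∃ c' : X, ∃ γ > (0:ℝ), 0 ≤ e c' - γ ∧
      ∀ f ∈ Xt X, f ≠ e → f c' ≤ e c' - γ := by
  classical
  obtain ⟨e, he, hec⟩ := exists_ext c
  have hβ := slice_lt hne
  have heS : e ∈ Slice c β := ⟨ext_norm_le he, by rw [hec]; exact hβ⟩
  have hev := hsub e heS
  refine ⟨e, he, hev, ?_⟩
  obtain ⟨P, hP⟩ := hL e he
  have := hfin.to_subtype
  set T : ℝ := (‖c‖ - β) / 2 with hT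
  have hT0 : 0 < T := by rw [hT]; linarith
  have hPle : ∀ g, |P g| ≤ ‖g‖ := fun g => by
    rw [hP.2 g]
    linarith [norm_nonneg (g - P g • e)]
  obtain ⟨p, hp1, hp2⟩ := goldstine P hPle
    (fun f : (Slice c β ∩ Xt X : Set (StrongDual ℝ X)) => (f : StrongDual ℝ X))
    (δ := 1 / 4) (by norm_num)
  refine ⟨c + T • p, T / 2, by positivity, ?_, ?_⟩
  · have h1 := (abs_lt.1 (hp2 ⟨e, heS, he⟩)).1
    rw [hP.1] at h1
    rw [map_add, map_smul, smul_eq_mul, hec]
    have hc := norm_nonneg c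
    have h1' : 3 / 4 < e p := by
      have : -(1/4 : ℝ) < e p - 1 := h1
      linarith
    nlinarith
  · intro f hf hfe
    have h1 := (abs_lt.1 (hp2 ⟨e, heS, he⟩)).1
    rw [hP.1] at h1
    have h1' : 3 / 4 < e p := by
      have : -(1/4 : ℝ) < e p - 1 := h1
      linarith
    rw [map_add, map_smul, smul_eq_mul, map_add, map_smul, smul_eq_mul, hec]
    by_cases hfS : f ∈ Slice c β
    · have hPf : P f = 0 := by
        apply hP.eq_zero hf hfe
        intro h'
        have h2 := hsub f hfS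
        rw [h', ContinuousLinearMap.neg_apply] at h2
        linarith
      have h2 := (abs_lt.1 (hp2 ⟨f, hfS, hf⟩)).2
      rw [hPf] at h2
      have h2' : f p < 1 / 4 := by
        have : f p - 0 < 1 / 4 := h2
        linarith
      have h3 := (abs_le.1 (apply_le_norm (ext_norm_le hf) c)).2
      nlinarith
    · have h2 : f c ≤ β := by
        by_contra hlt
        push Not at hlt
        exact hfS ⟨ext_norm_le hf, hlt⟩
      have h3 : f p ≤ 1 := ((abs_le.1 (apply_le_norm (ext_norm_le hf) p)).2).trans hp1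
      have h4 : T * f p ≤ T := by nlinarith
      have h5 : T * (3 / 4) ≤ T * e p := by nlinarith
      linarith

/-- moving to a point where the norm is locally linear -/
lemma near_of_isolated {v : X} {η ρ : ℝ} (hη : 0 < η) (hηρ : η < ρ) (hηv : η ≤ ‖v‖)
    {e : StrongDual ℝ X} (he : e ∈ Xt X) {P : StrongDual ℝ X →ₗ[ℝ] ℝ} (hP : LLine e P)
    (hev : ‖v‖ - η < e v) {c : X} {γ₀ : ℝ} (hγ₀ : 0 < γ₀) (hec : 0 ≤ e c - γ₀)
    (hc : ∀ f ∈ Xt X, f ≠ e → f c ≤ e c - γ₀) :
    ∃ x : X, dist x v < ρ ∧ ∃ γ > (0:ℝ), ∀ f ∈ Xt X, f ≠ e → f x ≤ e x - γ := by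
  by_contra hno
  push Not at hno
  set A : Set (StrongDual ℝ X) := {f | f ∈ Xt X ∧ f ≠ e} with hA
  have hA1 : ∀ f ∈ A, ‖f‖ ≤ 1 := fun f hf => ext_norm_le hf.1
  have he1 := ext_norm_le he
  let U : Set (X × ℝ) := {q | ∃ γ > (0:ℝ), ∀ f ∈ A, f q.1 - e q.1 + γ ≤ q.2}
  have hUconv : Convex ℝ U := by
    rintro ⟨x, s⟩ ⟨γ, hγ, h1⟩ ⟨y, t⟩ ⟨γ', hγ', h2⟩ a b ha hb hab
    refine ⟨a * γ + b * γ', ?_, fun f hf => ?_⟩
    · rcases ha.eq_or_lt with h' | h'
      · have : b = 1 := by linarith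
        rw [← h', this]
        linarith
      · nlinarith
    · have h1' := h1 f hf
      have h2' := h2 f hf
      change f (a • x + b • y) - e (a • x + b • y) + (a * γ + b * γ') ≤ a • s + b • t
      simp only [map_add, map_smul, smul_eq_mul]
      have h3 : a * (f x - e x + γ) ≤ a * s := mul_le_mul_of_nonneg_left h1' ha
      have h4 : b * (f y - e y + γ') ≤ b * t := mul_le_mul_of_nonneg_left h2' hb
      linarith
  have hUopen : IsOpen U := by
    rw [Metric.isOpen_iff]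
    rintro ⟨x, s⟩ ⟨γ, hγ, h1⟩
    refine ⟨γ / 8, by positivity, ?_⟩
    rintro ⟨y, t⟩ hyt
    rw [mem_ball, Prod.dist_eq, max_lt_iff] at hyt
    obtain ⟨hy, ht⟩ := hyt
    change dist y x < γ / 8 at hy
    change dist t s < γ / 8 at ht
    rw [dist_eq_norm] at hy
    rw [Real.dist_eq, abs_lt] at ht
    refine ⟨γ / 2, by positivity, fun f hf => ?_⟩
    change f y - e y + γ / 2 ≤ t
    have h1' : f x - e x + γ ≤ s := h1 f hf
    have h2 := (abs_le.1 (apply_le_norm (hA1 f hf) (y - x))).2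
    have h3 := (abs_le.1 (apply_le_norm he1 (y - x))).1
    rw [map_sub] at h2 h3
    linarith
  let V : Set (X × ℝ) := ball v ρ ×ˢ Iic 0
  have hVconv : Convex ℝ V := (convex_ball v ρ).prod (convex_Iic 0)
  have hdis : Disjoint U V := by
    rw [Set.disjoint_left]
    rintro ⟨x, s⟩ ⟨γ, hγ, h1⟩ ⟨hx, hs⟩
    obtain ⟨f, hf1, hf2, hf3⟩ := hno x hx γ hγ
    have := h1 f ⟨hf1, hf2⟩
    change f x - e x + γ ≤ s at this
    change s ≤ 0 at hs
    linarith
  obtain ⟨F, α, hF1, hF2⟩ := geometric_hahn_banach_open hUconv hUopen hVconv hdis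
  let l : StrongDual ℝ X := F.comp (ContinuousLinearMap.inl ℝ X ℝ)
  set t : ℝ := F (0, 1) with ht
  have hF : ∀ (x : X) (s : ℝ), F (x, s) = l x + t * s := by
    intro x s
    have h1 : (x, s) = (x, (0:ℝ)) + s • ((0 : X), (1:ℝ)) := by simp
    rw [h1, map_add, map_smul, smul_eq_mul, ← ht, mul_comm]
    rfl
  have hUx : ∀ x : X, (x, 2 * ‖x‖ + 1) ∈ U := by
    intro x
    refine ⟨1, one_pos, fun f hf => ?_⟩
    change f x - e x + 1 ≤ 2 * ‖x‖ + 1
    have h2 := (abs_le.1 (apply_le_norm (hA1 f hf) x)).2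
    have h3 := (abs_le.1 (apply_le_norm he1 x)).1
    linarith
  have hρ : 0 < ρ := hη.trans hηρ
  have hVv : ∀ s ≤ (0:ℝ), α ≤ l v + t * s := fun s hs => by
    have := hF2 (v, s) ⟨mem_ball_self hρ, hs⟩
    rwa [hF] at this
  have ht1 : t ≤ 0 := by
    by_contra hlt
    push Not at hlt
    have := hVv (-((|l v - α| + 1) / t)) (by
      have : 0 < (|l v - α| + 1) / t := by positivity
      linarith)
    rw [mul_neg, mul_div_cancel₀ _ hlt.ne'] at this
    have := le_abs_self (l v - α)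
    linarith
  have ht0 : t < 0 := by
    rcases ht1.eq_or_lt with h' | h'
    · exfalso
      have h1 := hF1 _ (hUx v)
      rw [hF, h', zero_mul, add_zero] at h1
      have h2 := hVv 0 le_rfl
      rw [mul_zero, add_zero] at h2
      linarith
    · exact h'
  -- U is a cone
  have hcone : ∀ q ∈ U, ∀ n : ℝ, 0 < n → n • q ∈ U := by
    rintro ⟨x, s⟩ ⟨γ, hγ, h1⟩ n hn
    refine ⟨n * γ, by positivity, fun f hf => ?_⟩
    have h1' : f x - e x + γ ≤ s := h1 f hf
    change f (n • x) - e (n • x) + n * γ ≤ n • s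
    simp only [map_smul, smul_eq_mul]
    nlinarith
  have hα : 0 ≤ α := by
    by_contra hlt
    push Not at hlt
    have h0 : ((0:X), (1:ℝ)) ∈ U := ⟨1, one_pos, fun f hf => by simp⟩
    have h1 := hF1 _ (hcone _ h0 (-α / (2 * -t)) (div_pos (by linarith) (by linarith)))
    rw [map_smul, hF, map_zero, zero_add, mul_one, smul_eq_mul] at h1
    have h2 : -α / (2 * -t) * t = α / 2 := by
      have ht' : t ≠ 0 := ht0.ne
      field_simp
    rw [h2] at h1
    linarith
  have hU0 : ∀ q ∈ U, F q ≤ 0 := by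
    intro q hq
    by_contra hlt
    push Not at hlt
    have h1 := hF1 _ (hcone q hq ((α + 1) / F q) (by positivity))
    rw [map_smul, smul_eq_mul, div_mul_cancel₀ _ hlt.ne'] at h1
    linarith
  set m : StrongDual ℝ X := (-t)⁻¹ • l with hm
  have hmt : ∀ x, l x = (-t) * m x := by
    intro x
    rw [hm, ContinuousLinearMap.smul_apply, smul_eq_mul, mul_inv_cancel_left₀ (by linarith)]
  have hmU : ∀ (x : X) (s : ℝ), (x, s) ∈ U → m x ≤ s := by
    intro x s hs
    have h1 := hU0 _ hs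
    rw [hF, hmt] at h1
    by_contra hlt
    push Not at hlt
    nlinarith
  have hk : ‖e + m‖ ≤ 1 := by
    have h1 : ∀ x : X, (e + m) x ≤ ‖x‖ := by
      intro x
      refine le_of_forall_pos_le_add fun ε hε => ?_
      have h2 : (x, ‖x‖ - e x + ε) ∈ U := by
        refine ⟨ε, hε, fun f hf => ?_⟩
        change f x - e x + ε ≤ ‖x‖ - e x + ε
        have := (abs_le.1 (apply_le_norm (hA1 f hf) x)).2
        linarith
      have h3 := hmU _ _ h2
      rw [ContinuousLinearMap.add_apply]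
      linarith
    refine ContinuousLinearMap.opNorm_le_bound _ zero_le_one fun x => ?_
    rw [one_mul, Real.norm_eq_abs, abs_le]
    have h2 := h1 (-x)
    rw [map_neg, norm_neg] at h2
    exact ⟨by linarith, h1 x⟩
  have hm0 : m c < 0 := by
    have h1 : (c, -(γ₀ / 2)) ∈ U := by
      refine ⟨γ₀ / 2, by positivity, fun f hf => ?_⟩
      change f c - e c + γ₀ / 2 ≤ -(γ₀ / 2)
      have := hc f hf.1 hf.2
      linarith
    have := hmU _ _ h1
    linarith
  have hball : ∀ y ∈ ball v ρ, 0 ≤ m y := by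
    intro y hy
    have h1 := hF2 (y, 0) ⟨hy, mem_Iic.2 (le_refl (0:ℝ))⟩
    rw [hF, mul_zero, add_zero, hmt] at h1
    by_contra hlt
    push Not at hlt
    nlinarith
  set ρ' := (η + ρ) / 2 with hρ'
  have hρ'0 : 0 < ρ' := by rw [hρ']; linarith
  have hρ'1 : ρ' < ρ := by rw [hρ']; linarith
  have hmv : ρ' * ‖m‖ ≤ m v := by
    have h1 : ∀ x : X, ‖x‖ = 1 → m x ≤ m v / ρ' := by
      intro x hx
      have h2 := hball (v - ρ' • x) (by
        rw [mem_ball, dist_eq_norm]
        have : v - ρ' • x - v = -(ρ' • x) := by abel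
        rw [this, norm_neg, norm_smul, hx, mul_one, Real.norm_of_nonneg hρ'0.le]
        exact hρ'1)
      rw [map_sub, map_smul, smul_eq_mul] at h2
      rw [le_div_iff₀ hρ'0]
      linarith
    have h3 : ‖m‖ ≤ m v / ρ' := by
      refine ContinuousLinearMap.opNorm_le_of_unit_norm ?_ ?_
      · have := hball v (mem_ball_self hρ)
        positivity
      · intro x hx
        rw [Real.norm_eq_abs, abs_le]
        have h4 := h1 (-x) (by rwa [norm_neg])
        rw [map_neg] at h4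
        exact ⟨by linarith, h1 x hx⟩
    rw [le_div_iff₀ hρ'0] at h3
    linarith
  -- the L-projection
  set k := e + m with hkdef
  set a := P k with ha
  set z := k - a • e with hz
  have hPz : P z = 0 := by
    rw [hz, map_sub, map_smul, hP.1, ← ha]
    simp
  have hk2 : |a| + ‖z‖ ≤ 1 := by
    have := hP.2 k
    rw [← ha, ← hz] at this
    linarith
  have hz0 := norm_nonneg z
  have haa := le_abs_self a
  have hmz : m = (a - 1) • e + z := by
    rw [hz, hkdef]
    module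
  have hmn : ‖m‖ = |a - 1| + ‖z‖ := by
    rw [hmz]
    exact hP.norm_comb _ _ hPz
  have ha1 : a ≤ 1 := by linarith
  rw [abs_of_nonpos (by linarith : a - 1 ≤ 0)] at hmn
  have hmv2 : m v = (a - 1) * e v + z v := by
    rw [hmz, ContinuousLinearMap.add_apply, ContinuousLinearMap.smul_apply, smul_eq_mul]
  have hzv : z v ≤ ‖z‖ * ‖v‖ := (le_abs_self _).trans (z.le_opNorm v)
  have hvn := norm_nonneg v
  have h5 : (1 - a) * (‖v‖ - η) ≤ (1 - a) * e v :=
    mul_le_mul_of_nonneg_left hev.le (by linarith)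
  have h6 : ‖z‖ * ‖v‖ ≤ (1 - a) * ‖v‖ := mul_le_mul_of_nonneg_right (by linarith) hvn
  have h7 : m v ≤ (1 - a) * η := by rw [hmv2]; linarith
  have h8 : ρ' * (1 - a) ≤ ρ' * ‖m‖ := mul_le_mul_of_nonneg_left (by linarith) hρ'0.le
  have h9 : (ρ' - η) * (1 - a) ≤ 0 := by linarith
  have h10 : 0 < ρ' - η := by rw [hρ']; linarith
  have h11 : 1 - a ≤ 0 := by
    by_contra hlt
    push Not at hlt
    have := mul_pos h10 hlt
    linarith
  have h12 : a = 1 := by linarith
  have h13 : ‖z‖ = 0 := by linarith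
  have h14 : m = 0 := by
    rw [hmz, h12, norm_eq_zero.1 h13]
    simp
  rw [h14] at hm0
  simp at hm0

lemma nlo_of_dominated {x : X} {e : StrongDual ℝ X} (he : e ∈ Xt X) {γ : ℝ} (hγ : 0 < γ)
    (h : ∀ f ∈ Xt X, f ≠ e → f x ≤ e x - γ) : NLO x := by
  have hloc : ∀ y : X, ‖y - x‖ ≤ γ / 4 → ‖y‖ = e y := by
    intro y hy
    obtain ⟨f, hf, hfy⟩ := exists_ext y
    by_cases hfe : f = e
    · rw [← hfy, hfe]
    · exfalso
      have h1 := h f hf hfe
      have h2 := (abs_le.1 (apply_le_norm (ext_norm_le hf) (y - x))).2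
      have h3 := (abs_le.1 (apply_le_norm (ext_norm_le he) (y - x))).1
      have h4 := (abs_le.1 (apply_le_norm (ext_norm_le he) y)).2
      rw [map_sub] at h2 h3
      linarith
  refine ⟨γ / 4, by positivity, 2 * (γ / 4), by positivity, fun u hu => ?_⟩
  have hs : ‖(γ / 4) • u‖ = γ / 4 := by
    rw [norm_smul, hu, mul_one, Real.norm_of_nonneg (by positivity)]
  rw [hloc (x + (γ / 4) • u) (by rw [add_sub_cancel_left, hs]),
    hloc (x - (γ / 4) • u) (by
      have : x - (γ / 4) • u - x = -((γ / 4) • u) := by abel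
      rw [this, norm_neg, hs]),
    hloc x (by rw [sub_self, norm_zero]; positivity), map_add, map_sub]
  linarith

/-- **Spaces all of whose extreme functionals span L-summands of the dual are good.** -/
theorem good_of_llines (hL : ∀ e ∈ Xt X, ∃ P, LLine e P) : Good X := by
  rcases subsingleton_or_nontrivial X with hs | hn
  · exact good_of_subsingleton
  have hdense : Dense {x : X | x ≠ 0} := dense_compl_singleton (0 : X)
  unfold Good
  rw [Metric.dense_iff]
  intro v₀ ε hε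
  obtain ⟨v, hv0, hv⟩ := hdense.exists_dist_lt v₀ (show 0 < ε / 2 by positivity)
  have hvn : 0 < ‖v‖ := norm_pos_iff.2 hv0
  set η := min (ε / 8) ‖v‖ with hη
  have hη0 : 0 < η := by positivity
  have hη1 : η ≤ ε / 8 := min_le_left _ _
  have hη2 : η ≤ ‖v‖ := min_le_right _ _
  by_cases hSR : SR v
  · exact ⟨v, by rw [mem_ball, dist_comm]; linarith, Or.inr hSR⟩
  · have h1 : ¬ ∀ (c : X) (β : ℝ), (Slice c β).Nonempty → (∀ f ∈ Slice c β, ‖v‖ - η < f v) →
        (Slice c β ∩ Xt X).Infinite := fun H => hSR (sr_of_infinite hη0 hη2 hL H)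
    push Not at h1
    obtain ⟨c, β, hne, hsub, hfin⟩ := h1
    have hfin' : (Slice c β ∩ Xt X).Finite := by
      first
        | exact hfin
        | exact Set.not_infinite.1 hfin
    obtain ⟨e, he, hev, c', γ, hγ, hec, hc⟩ := isolate hη2 hL hne hsub hfin'
    obtain ⟨P, hP⟩ := hL e he
    obtain ⟨x, hx, γ', hγ', hx2⟩ := near_of_isolated hη0 (show η < 2 * η by linarith) hη2 he hP hev
      hγ hec hc
    refine ⟨x, ?_, Or.inl (nlo_of_dominated he hγ' hx2)⟩
    rw [mem_ball]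
    have := dist_triangle x v v₀
    rw [dist_comm v v₀] at this
    linarith

end Pool.Agent.TH326.SF
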